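import Pool.Agent.Q45.TG.TStep

/-!
# The base case
-/

set_option autoImplicit false
set_option linter.all false

open Polynomial IsDedekindDomain WithZero
open scoped Classical

namespace Pool.Agent.Q45.TG

open Pool.Agent.Q45.TW (cst)
open Pool.Agent.Y160.SE (IsPw)
open Pool.Agent.Q45.TT (FS FS.base exists_alg exists_ic exists_above exists_irr val_under exists_sub)
open Pool.Agent.Q45.TL (IsTower IsKum irr_up ideal_pw)

/-- Elements with valuations divisible by `p` in the field of fractions of a Dedekind domain without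
ideal classes of order `p`. -/
theorem even_cls {p : ℕ} (hp : p ≠ 0) {S R L : Type} [CommRing S] [CommRing R] [IsDedekindDomain R]
    [Field L] [Algebra R L] [IsFractionRing R L] (e : S ≃+* R)
    (hcls : ∀ J : Ideal S, (J ^ p).IsPrincipal → J.IsPrincipal) {z : L} (hz : z ≠ 0)
    (hev : ∀ v : HeightOneSpectrum R, IsPw p (v.valuation L z)) :
    ∃ (u : Sˣ) (w : L), w ≠ 0 ∧ z = algebraMap R L (e (u : S)) * w ^ p := by
  obtain ⟨a, b, hb, rfl⟩ := IsFractionRing.div_surjective (A := R) z
  have hb0 : b ≠ 0 := nonZeroDivisors.ne_zero hb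
  have ha0 : a ≠ 0 := by
    rintro rfl
    rw [map_zero, zero_div] at hz
    exact hz rfl
  have hbL : algebraMap R L b ≠ 0 := fun h =>
    hb0 (IsFractionRing.injective R L (by rw [h, map_zero]))
  have he : algebraMap R L (a * b ^ (p - 1)) =
      algebraMap R L a / algebraMap R L b * algebraMap R L b ^ p := by
    obtain ⟨q, rfl⟩ : ∃ q, p = q + 1 := ⟨p - 1, by omega⟩
    rw [map_mul, map_pow, Nat.add_sub_cancel, pow_succ]
    field_simp
  have hab : a * b ^ (p - 1) ≠ 0 := mul_ne_zero ha0 (pow_ne_zero _ hb0)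
  obtain ⟨J, hJ⟩ := ideal_pw hp hab fun v => by
    have h1 : v.valuation L (algebraMap R L (a * b ^ (p - 1))) = v.intValuation (a * b ^ (p - 1)) :=
      v.valuation_of_algebraMap _
    rw [← h1, he, map_mul, map_pow]
    exact (hev v).mul (IsPw.self _)
  -- the ideal is principal
  have hJ1 : ((J.map (e.symm : R →+* S)) ^ p).IsPrincipal := by
    rw [← Ideal.map_pow, ← hJ, Ideal.map_span, Set.image_singleton]
    exact ⟨⟨_, rfl⟩⟩
  obtain ⟨j₁, hj₁⟩ := (hcls _ hJ1).principal
  have hj' : J = Ideal.span {e j₁} := by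
    have h1 : J.map (e.symm : R →+* S) = Ideal.span {j₁} := hj₁
    have h3 : (J.map (e.symm : R →+* S)).map (e : S →+* R) = J := by
      rw [Ideal.map_map]
      have h4 : (e : S →+* R).comp (e.symm : R →+* S) = RingHom.id R :=
        RingHom.ext fun x => e.apply_symm_apply x
      rw [h4, Ideal.map_id]
    rw [← h3, h1, Ideal.map_span, Set.image_singleton]
    rfl
  set j := e j₁ with hj
  rw [hj', Ideal.span_singleton_pow, Ideal.span_singleton_eq_span_singleton] at hJ
  obtain ⟨ε, hε⟩ := hJ.symm
  have hj0 : j ≠ 0 := by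
    intro h0
    rw [h0, zero_pow hp, zero_mul] at hε
    exact hab hε.symm
  refine ⟨Units.map (e.symm : R →* S) ε, algebraMap R L j / algebraMap R L b,
    div_ne_zero (fun h => hj0 (IsFractionRing.injective R L (by rw [h, map_zero]))) hbL, ?_⟩
  have h3 : e ((Units.map (e.symm : R →* S) ε : Sˣ) : S) = (ε : R) := e.apply_symm_apply _
  rw [h3, div_pow, ← mul_div_assoc, eq_div_iff (pow_ne_zero _ hbL), ← he, ← hε, map_mul, map_pow,
    mul_comm]

section base

variable {p : ℕ} {k : Type} [Field k] {F : k[X][X]} {ζ : k}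

/-- The ring of integers of `k(s)(θ)` is the coordinate ring of the curve `F(x, s) = 0`. -/
theorem ring_base (hF : F.Monic) (hd : IsDedekindDomain (AdjoinRoot F)) {K : Type} [Field K]
    [Algebra k[X] K] (hK : IsFractionRing k[X] K) {L : Type} [Field L] [Algebra k[X] L]
    [Algebra K L] [IsScalarTower k[X] K L] {θ : L} (hθ : aeval θ (fF F K) = 0)
    (htop : IntermediateField.adjoin K {θ} = ⊤) (R : Type) [CommRing R] [Algebra k[X] R]
    [Algebra R L] [IsScalarTower k[X] R L] [IsIntegralClosure R k[X] L] :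
    ∃ e : AdjoinRoot F ≃+* R, ∀ c : k[X], e (AdjoinRoot.of F c) = algebraMap k[X] R c := by
  set S := AdjoinRoot F with hS
  haveI : IsIntegrallyClosed S := inferInstance
  have hroot : eval₂ (algebraMap k[X] L) θ F = 0 := by
    have h5 : eval₂ (algebraMap k[X] L) θ F = aeval θ (fF F K) := by
      rw [aeval_def, fF, eval₂_map]
      congr 1
      exact IsScalarTower.algebraMap_eq k[X] K L
    rw [h5, hθ]
  let φ : S →+* L := AdjoinRoot.lift (algebraMap k[X] L) θ hroot
  letI : Algebra S L := φ.toAlgebra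
  have hφ : ∀ p : k[X], algebraMap S L (algebraMap k[X] S p) = algebraMap k[X] L p := fun p =>
    AdjoinRoot.lift_of hroot
  haveI : IsScalarTower k[X] S L := IsScalarTower.of_algebraMap_eq fun p => (hφ p).symm
  haveI : Module.Finite k[X] S := hF.finite_adjoinRoot
  haveI : Algebra.IsIntegral k[X] S := Algebra.IsIntegral.of_finite k[X] S
  have hinjL : Function.Injective (algebraMap k[X] L) := by
    rw [IsScalarTower.algebraMap_eq k[X] K L]
    exact (algebraMap K L).injective.comp (IsFractionRing.injective k[X] K)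
  have hinj : Function.Injective (algebraMap S L) := by
    refine TW.inj_of_integral (S := k[X]) (algebraMap S L) ?_
    have h5 : (algebraMap S L).comp (algebraMap k[X] S) = algebraMap k[X] L := RingHom.ext hφ
    rw [h5]
    exact hinjL
  haveI : IsFractionRing S L := by
    let ψ : FractionRing S →+* L := IsFractionRing.lift hinj
    have hψ : ∀ a, ψ (algebraMap S (FractionRing S) a) = algebraMap S L a := fun a =>
      IsFractionRing.lift_algebraMap hinj a
    have hpol : ∀ p : k[X], algebraMap k[X] L p ∈ ψ.fieldRange := fun p =>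
      ⟨algebraMap S _ (algebraMap k[X] S p), by rw [hψ, hφ]⟩
    have hKr : ∀ x : K, algebraMap K L x ∈ ψ.fieldRange := by
      intro x
      obtain ⟨a, b, -, rfl⟩ := IsFractionRing.div_surjective (A := k[X]) x
      rw [map_div₀, ← IsScalarTower.algebraMap_apply k[X] K L,
        ← IsScalarTower.algebraMap_apply k[X] K L]
      exact div_mem (hpol a) (hpol b)
    let T : IntermediateField K L := ψ.fieldRange.toIntermediateField hKr
    have hT : T = ⊤ := by
      rw [eq_top_iff, ← htop, IntermediateField.adjoin_simple_le_iff]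
      exact ⟨algebraMap S _ (AdjoinRoot.root _), by rw [hψ]; exact AdjoinRoot.lift_root hroot⟩
    have hsurj : Function.Surjective ψ := by
      intro x
      have h6 : x ∈ T := by rw [hT]; trivial
      exact h6
    let e : FractionRing S ≃ₐ[S] L :=
      AlgEquiv.ofBijective ({ ψ with commutes' := fun a => hψ a } : FractionRing S →ₐ[S] L)
        ⟨ψ.injective, hsurj⟩
    exact IsLocalization.isLocalization_of_algEquiv (nonZeroDivisors S) e
  haveI : IsIntegralClosure S k[X] L := IsIntegralClosure.of_isIntegrallyClosed S k[X] L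
  exact ⟨(IsIntegralClosure.equiv k[X] S L R).toRingEquiv, fun c =>
    (IsIntegralClosure.equiv k[X] S L R).commutes c⟩

/-- The conditions on the curve `F(x, s) = 0`: its coordinate ring is a Dedekind domain, its
units are constants, and its class group has no element of order `p`. -/
structure IsBr (p : ℕ) (F : k[X][X]) : Prop where
  ded : IsDedekindDomain (AdjoinRoot F)
  units : ∀ u : (AdjoinRoot F)ˣ, ∃ c : k, (u : AdjoinRoot F) = AdjoinRoot.of F (C c)
  cls : ∀ J : Ideal (AdjoinRoot F), (J ^ p).IsPrincipal → J.IsPrincipal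

/-- The base case. -/
theorem Triv.base (hp : p.Prime) (hF : F.Monic) (hirr : Irreducible F)
    (hcop : p.Coprime F.natDegree) (hB : IsBr p F) {K : Type} [Field K] [Algebra k[X] K]
    (hK : IsFractionRing k[X] K) : Triv p F K := by
  intro L _ _ _ _ θ hθ htop R _ _ _ _ _ _ _ z hz hev hno
  have hirr : Irreducible (fF F K) := irr_base hF hirr hK
  haveI : FiniteDimensional K L := TW.fin_of (fF_monic hF _) hθ htop
  obtain ⟨e, he1⟩ := ring_base hF hB.ded hK hθ htop R
  obtain ⟨v, w, hw, rfl⟩ := even_cls hp.ne_zero e hB.cls hz hev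
  obtain ⟨c, hc⟩ := hB.units v
  rw [hc] at hz hev hno ⊢
  obtain ⟨u, hu⟩ := hno
  have h1 : algebraMap R L (e (AdjoinRoot.of F (C c))) =
      algebraMap K L (algebraMap k[X] K (C c)) := by
    rw [he1, ← IsScalarTower.algebraMap_apply k[X] R L, ← IsScalarTower.algebraMap_apply k[X] K L]
  have hcK : algebraMap k[X] K (C c) ≠ 0 := by
    intro h0
    rw [h0, map_zero] at h1
    rw [h1, zero_mul] at hz
    exact hz rfl
  have h3 : Module.finrank K L = F.natDegree := by
    rw [TW.finrank_of hirr (fF_monic hF _) hθ htop, fF_natDegree hF]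
  rw [h1, map_mul, Algebra.norm_algebraMap, h3, map_pow] at hu
  set κ := algebraMap k[X] K (C c) with hκ
  set n := F.natDegree with hn
  have hNw : Algebra.norm K w ≠ 0 := (Algebra.norm_ne_zero_iff).2 hw
  -- Bezout
  have hb : (n : ℤ) * n.gcdA p + p * n.gcdB p = 1 := by
    have h4 := Nat.gcd_eq_gcd_ab n p
    rw [hcop.symm] at h4
    exact_mod_cast h4.symm
  have h4 : κ ^ n = (u / Algebra.norm K w) ^ p := by
    rw [div_pow, ← hu, mul_div_cancel_right₀ _ (pow_ne_zero _ hNw)]
  have h5 : κ = ((u / Algebra.norm K w) ^ (n.gcdA p) * κ ^ (n.gcdB p)) ^ p := by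
    rw [mul_pow, ← zpow_natCast, ← zpow_natCast (κ ^ _), ← zpow_mul, ← zpow_mul,
      mul_comm (n.gcdA p), zpow_mul, zpow_natCast, ← h4, ← zpow_natCast, ← zpow_mul,
      ← zpow_add₀ hcK, mul_comm (n.gcdB p), hb, zpow_one]
  refine ⟨algebraMap K L ((u / Algebra.norm K w) ^ (n.gcdA p) * κ ^ (n.gcdB p)) * w, ?_⟩
  rw [h1, mul_pow, ← map_pow, ← h5]

/-- **Elements with valuations divisible by `p` whose norm is a `p`-th power are `p`-th powers.** -/
theorem triv_tower (hp : p.Prime) (hζ : IsPrimitiveRoot ζ p) (hF : F.Monic)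
    (hirrF : Irreducible F) (hpos : 0 < F.natDegree) (hcop : p.Coprime F.natDegree)
    (hd : derivative F ≠ 0) (hB : IsBr p F) {K : Type}
    [Field K] [Algebra k[X] K] {m : ℕ} {s : ℕ → K} (h : IsTower p k K m s) (hram : RamK F K) :
    Triv p F K := by
  refine IsTower.ind hp hζ (M := fun K _ _ => RamK F K → Triv p F K)
    (fun K _ _ hK _ => Triv.base hp hF hirrF hcop hB hK) ?_ m K s h hram
  intro K' K _ _ _ _ _ _ D s hq _ htw ih hram
  obtain ⟨m', s', htw⟩ := htw
  have hfs' : FS k K' := htw.fs hp hζ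
  exact Triv.step hp hζ hF hpos hcop hirrF hd hq htw hram
    (ih (hram.down hfs' (hfs'.trans hq.fin hq.separable)))

end base

end Pool.Agent.Q45.TG
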