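import Pool.Agent.Q45.TG.Base

/-!
# Regularity
-/

set_option autoImplicit false
set_option linter.all false

open Polynomial IsDedekindDomain WithZero
open scoped Classical

namespace Pool.Agent.Q45.TG

open Pool.Agent.Q45.TW (cst)
open Pool.Agent.Y160.SE (IsPw)
open Pool.Agent.Y228.SE (approx_poly mem_sq_of_dvd)
open Pool.Agent.Q45.GP (Regular)
open Pool.Agent.Q45.TT (FS FS.base exists_alg exists_ic exists_above exists_irr val_under exists_sub
  HasDer dq coeff_dq dq_add dq_mul reg_sep)

section reg

variable {A F : Type} [CommRing A] [IsDedekindDomain A] [Field F] [Algebra A F]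
  [IsFractionRing A F]

/-- Regularity at a place with a derivation. -/
theorem reg_der (v : HeightOneSpectrum A) {δ : A → v.adicCompletionIntegers F} (h0 : δ 0 = 0)
    (hadd : ∀ x y, δ (x + y) = δ x + δ y)
    (hmul : ∀ x y, δ (x * y) = δ x * algebraMap A (v.adicCompletionIntegers F) y +
      algebraMap A (v.adicCompletionIntegers F) x * δ y) (f : A[X])
    (hf : ∃ a₁ a₂ a₃ : (v.adicCompletionIntegers F)[X],
      a₁ * f.map (algebraMap A (v.adicCompletionIntegers F)) +
        a₂ * (derivative f).map (algebraMap A (v.adicCompletionIntegers F)) + a₃ * dq δ f = 1)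
    (a : (v.adicCompletionIntegers F)[X]) (ha : a.Monic)
    (hirr : Irreducible (a.map (IsLocalRing.residue (v.adicCompletionIntegers F)))) :
    f.map (algebraMap A (v.adicCompletionIntegers F)) ∉
      (Ideal.span {a} ⊔ (IsLocalRing.maximalIdeal (v.adicCompletionIntegers F)).map C) ^ 2 := by
  intro hmem
  obtain ⟨π, hπ⟩ := v.intValuation_exists_uniformizer
  set φ : A[X] →+* (v.adicCompletionIntegers F)[X] :=
    mapRingHom (algebraMap A (v.adicCompletionIntegers F)) with hφ
  set J : Ideal (v.adicCompletionIntegers F)[X] :=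
    Ideal.span {a} ⊔ (IsLocalRing.maximalIdeal (v.adicCompletionIntegers F)).map C with hJ
  set J0 : Ideal A[X] := J.comap φ with hJ0
  have hvm : ∀ c ∈ v.asIdeal, algebraMap A (v.adicCompletionIntegers F) c ∈
      IsLocalRing.maximalIdeal (v.adicCompletionIntegers F) := by
    intro c hc
    rw [IsLocalRing.mem_maximalIdeal, mem_nonunits_iff,
      HeightOneSpectrum.adicCompletionIntegers.isUnit_iff_valued_eq_one]
    change ¬ Valued.v ((algebraMap A F c : F) : v.adicCompletion F) = 1
    rw [HeightOneSpectrum.valuedAdicCompletion_eq_valuation']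
    exact ((v.valuation_lt_one_iff_mem c).2 hc).ne
  have hπv : π ∈ v.asIdeal := by
    rw [← v.intValuation_lt_one_iff_mem, hπ, ← exp_zero]
    exact exp_lt_exp.2 (by norm_num)
  have hCJ : ∀ m ∈ IsLocalRing.maximalIdeal (v.adicCompletionIntegers F), C m ∈ J := fun m hm =>
    Ideal.mem_sup_right (Ideal.mem_map_of_mem C hm)
  have hCπ : C (algebraMap A (v.adicCompletionIntegers F) π ^ 2) ∈ J := by
    refine hCJ _ ?_
    exact Ideal.pow_mem_of_mem _ (hvm π hπv) 2 (by norm_num)
  have hC0 : v.asIdeal.map C ≤ J0 := by
    rw [Ideal.map_le_iff_le_comap]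
    intro c hc
    rw [Ideal.mem_comap, hJ0, Ideal.mem_comap]
    have : φ (C c) = C (algebraMap A (v.adicCompletionIntegers F) c) := by
      rw [hφ, coe_mapRingHom, map_C]
    rw [this]
    exact hCJ _ (hvm c hc)
  -- approximation of the elements of `J ^ 2`
  have key : ∀ w ∈ J ^ 2, ∃ w0 ∈ J0 ^ 2, ∃ h : (v.adicCompletionIntegers F)[X],
      w = φ w0 + C (algebraMap A (v.adicCompletionIntegers F) π ^ 2) * h := by
    intro w hw
    rw [pow_two] at hw
    refine Submodule.mul_induction_on hw ?_ ?_
    · intro m hm n hn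
      obtain ⟨m0, m1, hm1⟩ := approx_poly (F := F) v π hπ m
      obtain ⟨n0, n1, hn1⟩ := approx_poly (F := F) v π hπ n
      have hm0 : m0 ∈ J0 := by
        rw [hJ0, Ideal.mem_comap]
        have : φ m0 = m - C (algebraMap A (v.adicCompletionIntegers F) π ^ 2) * m1 := by
          rw [hm1]
          change _ = φ m0 + _ - _
          ring
        rw [this]
        exact Ideal.sub_mem _ hm (Ideal.mul_mem_right _ _ hCπ)
      have hn0 : n0 ∈ J0 := by
        rw [hJ0, Ideal.mem_comap]
        have : φ n0 = n - C (algebraMap A (v.adicCompletionIntegers F) π ^ 2) * n1 := by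
          rw [hn1]
          change _ = φ n0 + _ - _
          ring
        rw [this]
        exact Ideal.sub_mem _ hn (Ideal.mul_mem_right _ _ hCπ)
      refine ⟨m0 * n0, ?_, φ m0 * n1 + m1 * φ n0 +
        C (algebraMap A (v.adicCompletionIntegers F) π ^ 2) * m1 * n1, ?_⟩
      · rw [pow_two]
        exact Ideal.mul_mem_mul hm0 hn0
      · have e1 : m = φ m0 + C (algebraMap A (v.adicCompletionIntegers F) π ^ 2) * m1 := hm1
        have e2 : n = φ n0 + C (algebraMap A (v.adicCompletionIntegers F) π ^ 2) * n1 := hn1
        rw [map_mul]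
        conv_lhs => rw [e1, e2]
        ring
    · rintro x y ⟨x0, hx0, x1, hx⟩ ⟨y0, hy0, y1, hy⟩
      refine ⟨x0 + y0, Ideal.add_mem _ hx0 hy0, x1 + y1, ?_⟩
      rw [map_add]
      linear_combination hx + hy
  obtain ⟨w0, hw0, h, hw⟩ := key _ hmem
  have hfw : f - w0 ∈ J0 ^ 2 := by
    have h1 : φ (f - w0) = C (algebraMap A (v.adicCompletionIntegers F) π ^ 2) * h := by
      rw [map_sub]
      have : φ f = f.map (algebraMap A (v.adicCompletionIntegers F)) := rfl
      rw [this, hw]
      ring
    have h2 : f - w0 ∈ (v.asIdeal ^ 2).map C := by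
      rw [Ideal.mem_map_C_iff]
      intro n
      refine mem_sq_of_dvd (F := F) v π hπ _ (h.coeff n) ?_
      have h3 := congrArg (fun p => coeff p n) h1
      simp only [coeff_C_mul] at h3
      rw [← h3, hφ, coe_mapRingHom, coeff_map]
    rw [Ideal.map_pow] at h2
    exact Ideal.pow_right_mono hC0 2 h2
  have hfJ : f ∈ J0 ^ 2 := by
    have := Ideal.add_mem _ hfw hw0
    rwa [sub_add_cancel] at this
  have hd : ∀ w ∈ J0 ^ 2, dq δ w ∈ J := by
    intro w hw
    rw [pow_two] at hw
    refine Submodule.mul_induction_on hw ?_ ?_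
    · intro m hm n hn
      rw [dq_mul h0 hadd hmul]
      exact J.add_mem (J.mul_mem_left _ hn) (J.mul_mem_right _ hm)
    · intro x y h1 h2
      rw [dq_add h0 hadd]
      exact J.add_mem h1 h2
  have hf1 : f.map (algebraMap A (v.adicCompletionIntegers F)) ∈ J :=
    Ideal.pow_le_self two_ne_zero hmem
  have hd0 : ∀ w ∈ J0 ^ 2, derivative w ∈ J0 := by
    intro w hw
    rw [pow_two] at hw
    refine Submodule.mul_induction_on hw ?_ ?_
    · intro m hm n hn
      rw [derivative_mul]
      exact J0.add_mem (J0.mul_mem_left _ hn) (J0.mul_mem_right _ hm)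
    · intro x y h1 h2
      rw [derivative_add]
      exact J0.add_mem h1 h2
  have hf2 : (derivative f).map (algebraMap A (v.adicCompletionIntegers F)) ∈ J := hd0 f hfJ
  have hone : (1 : (v.adicCompletionIntegers F)[X]) ∈ J := by
    obtain ⟨a₁, a₂, a₃, h1⟩ := hf
    rw [← h1]
    exact J.add_mem (J.add_mem (J.mul_mem_left _ hf1) (J.mul_mem_left _ hf2))
      (J.mul_mem_left _ (hd f hfJ))
  have hle : J ≤ (Ideal.span {a.map (IsLocalRing.residue (v.adicCompletionIntegers F))}).comap
      (mapRingHom (IsLocalRing.residue (v.adicCompletionIntegers F))) := by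
    rw [hJ, sup_le_iff]
    constructor
    · rw [Ideal.span_le, Set.singleton_subset_iff, SetLike.mem_coe, Ideal.mem_comap]
      exact Ideal.subset_span rfl
    · rw [Ideal.map_le_iff_le_comap]
      intro m hm
      rw [Ideal.mem_comap, Ideal.mem_comap, coe_mapRingHom, map_C,
        (IsLocalRing.residue_eq_zero_iff _).2 hm, C_0]
      exact Ideal.zero_mem _
  have h4 := hle hone
  rw [Ideal.mem_comap, map_one, ← Ideal.eq_top_iff_one, Ideal.span_singleton_eq_top] at h4
  exact hirr.not_isUnit h4

end reg

/-- The derivative of the coefficients. -/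
noncomputable def ds {k : Type} [Field k] (F : k[X][X]) : k[X][X] :=
  F.sum fun i a => C (derivative a) * X ^ i

theorem coeff_ds {k : Type} [Field k] (F : k[X][X]) (n : ℕ) :
    (ds F).coeff n = derivative (F.coeff n) :=
  coeff_dq (A := k[X]) (O := k[X]) (δ := fun a => derivative a) derivative_zero F n

theorem ds_map {k k' : Type} [Field k] [Field k'] [Algebra k k'] (F : k[X][X]) :
    ds (F.map (mapRingHom (algebraMap k k'))) = (ds F).map (mapRingHom (algebraMap k k')) := by
  refine Polynomial.ext fun n => ?_
  rw [coeff_ds, coeff_map, coeff_map, coeff_ds, coe_mapRingHom, derivative_map]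

section reg

variable {k : Type} [Field k] {F : k[X][X]} {E : Type} [Field E] [Algebra k[X] E] {A : Type}
  [CommRing A] [IsDedekindDomain A] [Algebra k[X] A] [Algebra A E] [IsScalarTower k[X] A E]
  [IsFractionRing A E] [IsIntegralClosure A k[X] E]

/-- **Regularity.** -/
theorem regular_of_der (hsm : ∃ a₁ a₂ a₃ : k[X][X], a₁ * F + a₂ * derivative F + a₃ * ds F = 1)
    (hder : HasDer k E) (hsep : ∀ (v : HeightOneSpectrum A) (b : k[X]),
      Irreducible b → algebraMap k[X] A b ∈ v.asIdeal ^ 2 →
      ((fF F A).map (Ideal.Quotient.mk v.asIdeal)).Separable) :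
    Regular E (fF F A) := by
  intro v a ha hirr
  by_cases hunr : ∀ b : k[X], Irreducible b → algebraMap k[X] A b ∉ v.asIdeal ^ 2
  · obtain ⟨D, hD1, hD2⟩ := hder A v hunr
    let δ : A → v.adicCompletionIntegers E := fun x =>
      ⟨algebraMap E (v.adicCompletion E) (D (algebraMap A E x)), by
        change Valued.v ((D (algebraMap A E x) : E) : v.adicCompletion E) ≤ 1
        rw [HeightOneSpectrum.valuedAdicCompletion_eq_valuation']
        exact hD2 _ (v.valuation_le_one x)⟩
    have hval : ∀ x : A, ((algebraMap A (v.adicCompletionIntegers E) x :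
        v.adicCompletionIntegers E) : v.adicCompletion E) =
        algebraMap E (v.adicCompletion E) (algebraMap A E x) := fun x => rfl
    have hδ : ∀ x : A, ((δ x : v.adicCompletionIntegers E) : v.adicCompletion E) =
        algebraMap E (v.adicCompletion E) (D (algebraMap A E x)) := fun x => rfl
    have h0 : δ 0 = 0 := by
      apply Subtype.ext
      rw [hδ, map_zero, map_zero, map_zero]
      rfl
    refine reg_der v (δ := δ) h0 ?_ ?_ _ ?_ a ha hirr
    · intro x y
      apply Subtype.ext
      show ((δ (x + y) : v.adicCompletionIntegers E) : v.adicCompletion E) =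
        (δ x : v.adicCompletion E) + (δ y : v.adicCompletion E)
      rw [hδ, hδ, hδ, map_add, map_add, map_add]
    · intro x y
      apply Subtype.ext
      show ((δ (x * y) : v.adicCompletionIntegers E) : v.adicCompletion E) =
        (δ x : v.adicCompletion E) * ((algebraMap A (v.adicCompletionIntegers E) y :
          v.adicCompletionIntegers E) : v.adicCompletion E) +
          ((algebraMap A (v.adicCompletionIntegers E) x :
            v.adicCompletionIntegers E) : v.adicCompletion E) * (δ y : v.adicCompletion E)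
      rw [hδ, hδ, hδ, hval, hval, map_mul, Derivation.leibniz, smul_eq_mul, smul_eq_mul, map_add,
        map_mul, map_mul]
      ring
    · set ρ : k[X] →+* v.adicCompletionIntegers E :=
        (algebraMap A (v.adicCompletionIntegers E)).comp (algebraMap k[X] A) with hρ
      have hds : dq δ (fF F A) = (ds F).map ρ := by
        refine Polynomial.ext fun n => ?_
        rw [coeff_dq h0, coeff_map, coeff_ds, fF, coeff_map]
        apply Subtype.ext
        rw [hδ, ← IsScalarTower.algebraMap_apply k[X] A E, hD1]
        show _ = ((algebraMap A (v.adicCompletionIntegers E) (algebraMap k[X] A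
          (derivative (F.coeff n))) : v.adicCompletionIntegers E) : v.adicCompletion E)
        rw [hval, ← IsScalarTower.algebraMap_apply k[X] A E]
      obtain ⟨a₁, a₂, a₃, h1⟩ := hsm
      refine ⟨a₁.map ρ, a₂.map ρ, a₃.map ρ, ?_⟩
      have h3 := congrArg (Polynomial.map ρ) h1
      rw [Polynomial.map_add, Polynomial.map_add, Polynomial.map_mul, Polynomial.map_mul,
        Polynomial.map_mul, Polynomial.map_one] at h3
      rw [hds, fF, derivative_map, Polynomial.map_map, Polynomial.map_map, ← hρ]
      exact h3
  · push Not at hunr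
    obtain ⟨b, hb, hbv⟩ := hunr
    have hs := hsep v b hb hbv
    refine reg_sep v _ ?_ a ha hirr
    set ρ := (IsLocalRing.residue (v.adicCompletionIntegers E)).comp
      (algebraMap A (v.adicCompletionIntegers E)) with hρ
    have hρv : ∀ x ∈ v.asIdeal, ρ x = 0 := by
      intro x hx
      show IsLocalRing.residue (v.adicCompletionIntegers E)
        (algebraMap A (v.adicCompletionIntegers E) x) = 0
      rw [IsLocalRing.residue_eq_zero_iff, IsLocalRing.mem_maximalIdeal, mem_nonunits_iff,
        HeightOneSpectrum.adicCompletionIntegers.isUnit_iff_valued_eq_one]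
      change ¬ Valued.v ((algebraMap A E x : E) : v.adicCompletion E) = 1
      rw [HeightOneSpectrum.valuedAdicCompletion_eq_valuation']
      exact ((v.valuation_lt_one_iff_mem _).2 hx).ne
    have h3 : (Ideal.Quotient.lift v.asIdeal ρ hρv).comp (Ideal.Quotient.mk v.asIdeal) = ρ :=
      RingHom.ext fun x => rfl
    rw [← h3, ← Polynomial.map_map]
    exact hs.map

end reg

end Pool.Agent.Q45.TG
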