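import Pool.Agent.Q45.TG.Rat

/-!
# Towers of rational function fields
-/

set_option autoImplicit false
set_option linter.all false

open Polynomial IsDedekindDomain WithZero
open scoped Classical

namespace Pool.Agent.Q45.TG

open Pool.Agent.Q45.TW (cst IsGeom)
open Pool.Agent.Q45.TL (IsTower)
open Pool.Agent.Q45.TT (FS)

/-- The polynomial `a₁ + (a₂ + (⋯ (a_m + u ^ p) ^ p ⋯) ^ p) ^ p`. -/
noncomputable def nest {k : Type} [Field k] (p : ℕ) : List k → k[X]
  | [] => X
  | a :: l => C a + nest p l ^ p

section nest

variable {k : Type} [Field k] {p : ℕ}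

theorem nest_monic (hp : 0 < p) (l : List k) : (nest p l).Monic ∧ 0 < (nest p l).natDegree := by
  induction l with
  | nil => exact ⟨monic_X, by rw [nest, natDegree_X]; exact one_pos⟩
  | cons a l ih =>
    obtain ⟨h1, h2⟩ := ih
    have h3 : (nest p l ^ p).Monic := h1.pow p
    have h4 : 0 < (nest p l ^ p).natDegree := by
      rw [h1.natDegree_pow]
      exact Nat.mul_pos hp h2
    have h5 : (C a : k[X]).degree < (nest p l ^ p).degree :=
      lt_of_le_of_lt degree_C_le (natDegree_pos_iff_degree_pos.1 h4)
    rw [nest]
    refine ⟨h3.add_of_right h5, ?_⟩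
    rw [natDegree_C_add]
    exact h4

theorem nest_map {k' : Type} [Field k'] (φ : k →+* k') (l : List k) :
    (nest p l).map φ = nest p (l.map φ) := by
  induction l with
  | nil => rw [nest, map_X]; rfl
  | cons a l ih => rw [nest, Polynomial.map_add, Polynomial.map_pow, map_C, ih]; rfl

end nest

section comp

variable {k : Type} [Field k]

/-- The ring `R` which contains `k[u]` as an extension of `k[s]`, `s = h(u)`. -/
def KK {k : Type} [Field k] (h : k[X]) (R : Type) : Type := R

@[reducible] noncomputable def iCR (h : k[X]) (R : Type) [CommRing R] : CommRing (KK h R) :=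
  (inferInstance : CommRing R)

attribute [local instance] iCR

theorem iDom (h : k[X]) (R : Type) [CommRing R] [IsDomain R] : IsDomain (KK h R) :=
  (inferInstance : IsDomain R)

theorem iDed (h : k[X]) (R : Type) [CommRing R] [IsDedekindDomain R] :
    IsDedekindDomain (KK h R) := (inferInstance : IsDedekindDomain R)

@[reducible] noncomputable def iFi (h : k[X]) (R : Type) [Field R] : Field (KK h R) :=
  (inferInstance : Field R)

@[reducible] noncomputable def iAl (h : k[X]) (R : Type) [CommRing R] [Algebra k[X] R] :
    Algebra k[X] (KK h R) := ((algebraMap k[X] R).comp (compRingHom h)).toAlgebra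

@[reducible] noncomputable def iAA {k' : Type} [Field k'] (h : k[X]) (h' : k'[X]) (R S : Type)
    [CommRing R] [CommRing S] [Algebra R S] : Algebra (KK h R) (KK h' S) :=
  (inferInstance : Algebra R S)

attribute [local instance] iDom iDed iFi iAl iAA

theorem iFR (h : k[X]) (R K : Type) [CommRing R] [Field K] [Algebra R K]
    [IsFractionRing R K] : IsFractionRing (KK h R) (KK h K) := (inferInstance : IsFractionRing R K)

attribute [local instance] iFR

theorem algK (h : k[X]) (R : Type) [CommRing R] [Algebra k[X] R] (r : k[X]) :
    algebraMap k[X] (KK h R) r = algebraMap k[X] R (r.comp h) := rfl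

theorem iST (h : k[X]) (R K : Type) [CommRing R] [Field K] [Algebra k[X] R] [Algebra k[X] K]
    [Algebra R K] [IsScalarTower k[X] R K] : IsScalarTower k[X] (KK h R) (KK h K) :=
  IsScalarTower.of_algebraMap_eq fun r => IsScalarTower.algebraMap_apply k[X] R K (r.comp h)

attribute [local instance] iST

theorem int_poly {h : k[X]} (hm : h.Monic) (hpos : 0 < h.natDegree) (r : k[X]) :
    (compRingHom h : k[X] →+* k[X]).IsIntegralElem r := by
  have hX : (compRingHom h : k[X] →+* k[X]).IsIntegralElem X := by
    refine ⟨h.map C - C X, ?_, ?_⟩
    · refine (hm.map C).sub_of_left ?_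
      refine lt_of_le_of_lt degree_C_le ?_
      rw [degree_map_eq_of_injective C_injective]
      exact natDegree_pos_iff_degree_pos.1 hpos
    · rw [eval₂_sub, eval₂_C, eval₂_map]
      have h1 : (compRingHom h : k[X] →+* k[X]).comp C = C := RingHom.ext fun c => by
        show (C c : k[X]).comp h = C c
        rw [C_comp]
      have h3 : (compRingHom h : k[X] →+* k[X]) X = h := by
        show (X : k[X]).comp h = h
        rw [X_comp]
      rw [h3, h1, eval₂_C_X, sub_self]
  induction r using Polynomial.induction_on' with
  | add r₁ r₂ h1 h3 => exact h1.add _ h3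
  | monomial n c =>
    have h1 : (monomial n c : k[X]) = compRingHom h (C c) * X ^ n := by
      show (monomial n c : k[X]) = (C c : k[X]).comp h * X ^ n
      rw [C_comp, C_mul_X_pow_eq_monomial]
    have hpow : ∀ n : ℕ, (compRingHom h : k[X] →+* k[X]).IsIntegralElem (X ^ n) := by
      intro n
      induction n with
      | zero => rw [pow_zero]; exact RingHom.isIntegralElem_one _
      | succ n ih => rw [pow_succ]; exact ih.mul _ hX
    rw [h1]
    exact (RingHom.isIntegralElem_map _).mul _ (hpow n)

/-- The integral closure. -/
theorem ic_KK {h : k[X]} (hm : h.Monic) (hpos : 0 < h.natDegree) (B E : Type) [CommRing B]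
    [Field E] [Algebra k[X] B] [Algebra k[X] E] [Algebra B E] [IsScalarTower k[X] B E]
    [IsIntegralClosure B k[X] E] : IsIntegralClosure (KK h B) k[X] (KK h E) := by
  have hint : (compRingHom h : k[X] →+* k[X]).IsIntegral := int_poly hm hpos
  constructor
  · exact IsIntegralClosure.algebraMap_injective B k[X] E
  · intro x
    have h1 : (∃ y : B, algebraMap B E y = x) ↔ (algebraMap k[X] E).IsIntegralElem x :=
      (IsIntegralClosure.isIntegral_iff (A := B) (R := k[X]) (B := E)).symm
    have h3 : IsIntegral k[X] (show KK h E from x) ↔
        ((algebraMap k[X] E).comp (compRingHom h)).IsIntegralElem x := Iff.rfl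
    refine h3.trans (Iff.trans ⟨fun h4 => ?_, fun h4 => ?_⟩ h1.symm)
    · exact RingHom.IsIntegralElem.of_comp h4
    · haveI : Algebra.IsIntegral k[X] (KK h k[X]) := ⟨hint⟩
      exact isIntegral_trans (R := k[X]) (A := KK h k[X]) (B := KK h E) x h4

/-- The tower of the fields generated by the nested polynomials. -/
theorem tower_nest {p : ℕ} (hp : 0 < p) (K : Type) [Field K] [Algebra k[X] K]
    [IsFractionRing k[X] K] (l : List k) :
    IsTower p k (KK (nest p l) K) l.length
      (fun i => (show KK (nest p l) K from algebraMap k[X] K (nest p (l.drop (i + 1))))) := by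
  set h := nest p l with hh
  obtain ⟨hm, hpos⟩ := nest_monic hp l
  rw [← hh] at hm hpos
  have hcomp : Function.Injective (compRingHom h : k[X] →+* k[X]) := by
    intro a b hab
    have h1 : (a - b).comp h = 0 := by
      rw [sub_comp]
      exact sub_eq_zero.2 hab
    rcases comp_eq_zero_iff.1 h1 with h3 | ⟨-, h3⟩
    · exact sub_eq_zero.1 h3
    · have h4 := congrArg natDegree h3
      rw [natDegree_C] at h4
      omega
  have hC : ∀ (S : Subfield (KK h K)), (∀ r : k[X], algebraMap k[X] (KK h K) r ∈ S) → ∀ c : k,
      (show KK h K from algebraMap k[X] K (C c)) ∈ S := by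
    intro S hS c
    have h1 := hS (C c)
    rw [algK, C_comp] at h1
    exact h1
  refine ⟨(IsFractionRing.injective k[X] K).comp hcomp, fun i hi => ?_, ?_⟩
  · set S := Subfield.closure (Set.range (algebraMap k[X] (KK h K)) ∪
      (fun i => (show KK h K from algebraMap k[X] K (nest p (l.drop (i + 1))))) '' {j | j < i})
      with hS
    have hr : ∀ r : k[X], algebraMap k[X] (KK h K) r ∈ S := fun r =>
      Subfield.subset_closure (Or.inl ⟨r, rfl⟩)
    -- the element of the previous level
    have hprev : (show KK h K from algebraMap k[X] K (nest p (l.drop i))) ∈ S := by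
      rcases i with _ | j
      · have h1 := hr X
        rw [algK, X_comp] at h1
        exact h1
      · exact Subfield.subset_closure (Or.inr ⟨j, Nat.lt_succ_self j, rfl⟩)
    have hdrop : l.drop i = l[i] :: l.drop (i + 1) := List.drop_eq_getElem_cons hi
    have h3 : (show KK h K from algebraMap k[X] K (nest p (l.drop (i + 1)))) ^ p =
        (show KK h K from algebraMap k[X] K (nest p (l.drop i))) -
          (show KK h K from algebraMap k[X] K (C l[i])) := by
      show (algebraMap k[X] K (nest p (l.drop (i + 1)))) ^ p =
        algebraMap k[X] K (nest p (l.drop i)) - algebraMap k[X] K (C l[i])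
      rw [hdrop, nest, map_add, map_pow, add_sub_cancel_left]
    rw [h3]
    exact sub_mem hprev (hC S hr _)
  · set S := Subfield.closure (Set.range (algebraMap k[X] (KK h K)) ∪
      (fun i => (show KK h K from algebraMap k[X] K (nest p (l.drop (i + 1))))) ''
        {j | j < l.length}) with hS
    have hr : ∀ r : k[X], algebraMap k[X] (KK h K) r ∈ S := fun r =>
      Subfield.subset_closure (Or.inl ⟨r, rfl⟩)
    have hX : (show KK h K from algebraMap k[X] K X) ∈ S := by
      rcases hl : l.length with _ | n
      · have h0 : l = [] := List.length_eq_zero_iff.1 hl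
        have h1 := hr X
        rw [algK, X_comp] at h1
        have h3 : h = X := by rw [hh, h0]; rfl
        rw [h3] at h1
        exact h1
      · have h1 : (show KK h K from algebraMap k[X] K (nest p (l.drop (n + 1)))) ∈ S :=
          Subfield.subset_closure (Or.inr ⟨n, by
            show n < l.length
            omega, rfl⟩)
        have h3 : l.drop (n + 1) = [] := List.drop_eq_nil_of_le (by omega)
        rw [h3] at h1
        exact h1
    have hall : ∀ r : k[X], (show KK h K from algebraMap k[X] K r) ∈ S := by
      intro r
      induction r using Polynomial.induction_on' with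
      | add r₁ r₂ h1 h3 =>
        have h5 : (show KK h K from algebraMap k[X] K (r₁ + r₂)) =
            (show KK h K from algebraMap k[X] K r₁) + (show KK h K from algebraMap k[X] K r₂) :=
          map_add (algebraMap k[X] K) r₁ r₂
        rw [h5]
        exact add_mem h1 h3
      | monomial n c =>
        have h5 : (show KK h K from algebraMap k[X] K (monomial n c)) =
            (show KK h K from algebraMap k[X] K (C c)) *
              (show KK h K from algebraMap k[X] K X) ^ n := by
          show algebraMap k[X] K (monomial n c) = algebraMap k[X] K (C c) * (algebraMap k[X] K X) ^ n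
          rw [← C_mul_X_pow_eq_monomial, map_mul, map_pow]
        rw [h5]
        exact mul_mem (hC S hr c) (pow_mem hX n)
    rw [eq_top_iff]
    rintro x -
    obtain ⟨a, b, -, hx⟩ := IsFractionRing.div_surjective (A := k[X]) (K := K) x
    have h1 : x = (show KK h K from algebraMap k[X] K a) / (show KK h K from algebraMap k[X] K b) :=
      hx.symm
    rw [h1]
    exact div_mem (hall a) (hall b)

end comp

end Pool.Agent.Q45.TG
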