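import Pool.Agent.Q45.TL.Main

/-!
# The curves `w ^ q = F(x, s)` over towers of cyclic extensions of `k(s)`
-/

set_option autoImplicit false
set_option linter.all false

open Polynomial IsDedekindDomain WithZero
open scoped Classical

namespace Pool.Agent.Q45.TG

open Pool.Agent.Q45.TW (cst)
open Pool.Agent.Y160.SE (IsPw)
open Pool.Agent.Q45.TT (FS FS.base exists_alg exists_ic exists_above exists_irr val_under exists_sub)
open Pool.Agent.Q45.TL (IsTower IsKum kum_up isUnit_p even_down ram_of_odd even_inert irr_up)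

section ff

variable {k : Type} [Field k] {F : k[X][X]}

/-- The polynomial `F(x, s)` over the ring `B` which contains `k[s]`. -/
noncomputable def fF (F : k[X][X]) (B : Type) [CommRing B] [Algebra k[X] B] : B[X] :=
  F.map (algebraMap k[X] B)

theorem fF_map {B C : Type} [CommRing B] [CommRing C] [Algebra k[X] B] [Algebra k[X] C]
    (φ : B →+* C) (h : ∀ p : k[X], φ (algebraMap k[X] B p) = algebraMap k[X] C p) :
    (fF F B).map φ = fF F C := by
  unfold fF
  rw [Polynomial.map_map]
  congr 1
  exact RingHom.ext h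

theorem fF_alg {K' K : Type} [Field K'] [Field K] [Algebra k[X] K'] [Algebra k[X] K]
    [Algebra K' K] [IsScalarTower k[X] K' K] : (fF F K').map (algebraMap K' K) = fF F K :=
  fF_map _ fun p => (IsScalarTower.algebraMap_apply k[X] K' K p).symm

theorem fF_monic (hF : F.Monic) (B : Type) [CommRing B] [Algebra k[X] B] : (fF F B).Monic :=
  hF.map _

theorem fF_natDegree (hF : F.Monic) (B : Type) [CommRing B] [Nontrivial B] [Algebra k[X] B] :
    (fF F B).natDegree = F.natDegree := hF.natDegree_map _

theorem irr_base (hF : F.Monic) (hirr : Irreducible F) {K : Type} [Field K] [Algebra k[X] K]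
    (hK : IsFractionRing k[X] K) : Irreducible (fF F K) :=
  (hF.irreducible_iff_irreducible_map_fraction_map (K := K)).1 hirr

theorem sep_fF {K : Type} [Field K] [Algebra k[X] K] (hinj : Function.Injective (algebraMap k[X] K))
    (hirr : Irreducible (fF F K)) (hd : derivative F ≠ 0) : (fF F K).Separable := by
  rw [separable_iff_derivative_ne_zero hirr, fF, derivative_map]
  exact (Polynomial.map_ne_zero_iff hinj).2 hd

/-- The polynomial `F(x, s)` is irreducible over the tower. -/
theorem irr_tower {p : ℕ} {ζ : k} (hp : p.Prime) (hζ : IsPrimitiveRoot ζ p) (hF : F.Monic)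
    (hirr : Irreducible F) (hpos : 0 < F.natDegree) (hcop : p.Coprime F.natDegree) {K : Type}
    [Field K] [Algebra k[X] K] {m : ℕ} {s : ℕ → K} (h : IsTower p k K m s) :
    Irreducible (fF F K) := by
  refine IsTower.ind hp hζ (M := fun K _ _ => Irreducible (fF F K))
    (fun K _ _ hK => irr_base hF hirr hK) ?_ m K s h
  intro K' K _ _ _ _ _ _ D s hq _ _ ih
  haveI := hq.fin
  rw [← fF_alg (K' := K') (K := K)]
  exact irr_up hq.finrank (fF_monic hF K') (by rwa [fF_natDegree hF])
    (by rwa [fF_natDegree hF]) ih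

/-- The polynomial `F` modulo `b`. -/
noncomputable def redF (F : k[X][X]) (b : k[X]) : (k[X] ⧸ Ideal.span {b})[X] :=
  F.map (Ideal.Quotient.mk (Ideal.span {b}))

end ff

section res

variable {k : Type} [Field k] {B : Type} [CommRing B] [IsDedekindDomain B] [Algebra k[X] B]
  [Module.Finite k[X] B] [Module.IsTorsionFree k[X] B]

/-- The residue degree is divisible by the degree of `F`, if `F` modulo `b` is irreducible. -/
theorem dvd_inertia (w : HeightOneSpectrum B) {b : k[X]} {F : k[X][X]} (hb : Irreducible b)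
    (hbw : algebraMap k[X] B b ∈ w.asIdeal) (θ : B) (hF : F.Monic)
    (hθ : eval₂ (algebraMap k[X] B) θ F = 0) (hirr : Irreducible (redF F b)) :
    F.natDegree ∣ w.asIdeal.inertiaDeg k[X] := by
  haveI : Algebra.IsIntegral k[X] B := Algebra.IsIntegral.of_finite k[X] B
  set p := w.under k[X] with hp
  haveI : p.asIdeal.IsMaximal := p.isMaximal
  haveI hlo : w.asIdeal.LiesOver p.asIdeal := ⟨rfl⟩
  haveI := w.isMaximal
  have hbp : b ∈ p.asIdeal := hbw
  have hpb : p.asIdeal = Ideal.span {b} := by
    have h1 : Ideal.span {b} ≤ p.asIdeal := by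
      rw [Ideal.span_singleton_le_iff_mem]
      exact hbp
    haveI : (Ideal.span {b}).IsMaximal := PrincipalIdealRing.isMaximal_of_irreducible hb
    exact (Ideal.IsMaximal.eq_of_le inferInstance p.isPrime.ne_top h1).symm
  rw [Ideal.inertiaDeg_eq_of_isMaximal p.asIdeal w.asIdeal]
  letI : Field (k[X] ⧸ p.asIdeal) := Ideal.Quotient.field _
  letI : Field (B ⧸ w.asIdeal) := Ideal.Quotient.field _
  set f : (k[X] ⧸ p.asIdeal)[X] := F.map (Ideal.Quotient.mk p.asIdeal) with hf
  have hfirr : Irreducible f := by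
    have key : ∀ I : Ideal k[X], I = Ideal.span {b} →
        Irreducible (F.map (Ideal.Quotient.mk I)) := by
      rintro I rfl
      exact hirr
    exact key _ hpb
  have hfm : f.Monic := hF.map _
  set η : B ⧸ w.asIdeal := Ideal.Quotient.mk _ θ with hη
  have hroot : aeval η f = 0 := by
    rw [aeval_def, hf, eval₂_map]
    have h1 : (algebraMap (k[X] ⧸ p.asIdeal) (B ⧸ w.asIdeal)).comp (Ideal.Quotient.mk p.asIdeal) =
        (Ideal.Quotient.mk w.asIdeal).comp (algebraMap k[X] B) := by
      refine RingHom.ext fun x => ?_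
      rfl
    rw [h1, hη, ← hom_eval₂, hθ, map_zero]
  have hint : IsIntegral (k[X] ⧸ p.asIdeal) η := ⟨f, hfm, hroot⟩
  have hmin : minpoly (k[X] ⧸ p.asIdeal) η = f :=
    (minpoly.eq_of_irreducible_of_monic hfirr hroot hfm).symm
  have h4 := IntermediateField.adjoin.finrank hint
  rw [hmin, hf, hF.natDegree_map] at h4
  rw [← h4]
  exact ⟨_, (Module.finrank_mul_finrank (k[X] ⧸ p.asIdeal)
    (IntermediateField.adjoin (k[X] ⧸ p.asIdeal) {η}) (B ⧸ w.asIdeal)).symm⟩

end res

section inert

variable {p : ℕ} {k : Type} [Field k] {A' R' : Type} [CommRing A'] [IsDedekindDomain A']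
  [CommRing R'] [IsDedekindDomain R'] [Algebra A' R'] [Algebra k[X] A'] [Algebra k[X] R']
  [IsScalarTower k[X] A' R'] [Module.IsTorsionFree A' R'] [Module.Finite A' R']
  [Module.Finite k[X] R'] [Module.IsTorsionFree k[X] R']

theorem inert_q [Algebra.IsIntegral A' R'] (q : HeightOneSpectrum R') {b : k[X]} {F : k[X][X]}
    (hb : Irreducible b) (hbq : algebraMap k[X] R' b ∈ q.asIdeal) (θ : R') (hF : F.Monic)
    (hθ : eval₂ (algebraMap k[X] R') θ F = 0) (hirr : Irreducible (redF F b))
    (hcop : p.Coprime F.natDegree) (hn : Module.finrank A' R' = F.natDegree) {j : ℕ}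
    (hj : (q.under A').asIdeal.inertiaDeg k[X] = p ^ j) :
    (q.under A').asIdeal.map (algebraMap A' R') = q.asIdeal := by
  haveI hlo : q.asIdeal.LiesOver (q.under A').asIdeal := ⟨rfl⟩
  refine TT.inert_of q ?_
  rw [hn]
  have h1 := dvd_inertia q hb hbq θ hF hθ hirr
  rw [Ideal.inertiaDeg_tower (R := k[X]) (q.under A').asIdeal q.asIdeal, hj] at h1
  exact (hcop.symm.pow_right j).dvd_of_dvd_mul_left h1

end inert

section ram

variable {k : Type} [Field k]

/-- The condition on the ramification: if a place of `A` is ramified over the place `b` of `k(s)`,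
then the polynomial `F` modulo `b` is irreducible and separable. -/
def Ram (F : k[X][X]) (A : Type) [CommRing A] [Algebra k[X] A] : Prop :=
  ∀ (v : HeightOneSpectrum A) (b : k[X]), Irreducible b → algebraMap k[X] A b ∈ v.asIdeal ^ 2 →
    Irreducible (redF F b) ∧ (redF F b).Separable

theorem Ram.down {F : k[X][X]} {A' A : Type} [CommRing A'] [IsDedekindDomain A'] [CommRing A]
    [IsDedekindDomain A] [Algebra k[X] A'] [Algebra k[X] A] [Algebra A' A] [IsScalarTower k[X] A' A]
    [Algebra.IsIntegral A' A] [Module.IsTorsionFree A' A] (h : Ram F A) : Ram F A' := by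
  intro v b hb hbv
  obtain ⟨w, hw⟩ := exists_above (B := A) v
  refine h w b hb ?_
  rw [IsScalarTower.algebraMap_apply k[X] A' A]
  have h1 : v.asIdeal.map (algebraMap A' A) ≤ w.asIdeal := by
    rw [Ideal.map_le_iff_le_comap, ← hw]
    exact le_rfl
  have h3 := Ideal.mem_map_of_mem (algebraMap A' A) hbv
  rw [Ideal.map_pow] at h3
  exact Ideal.pow_right_mono h1 2 h3

/-- The condition for all the models of the ring of integers. -/
def RamK (F : k[X][X]) (K : Type) [Field K] [Algebra k[X] K] : Prop :=
  ∀ (A : Type) [CommRing A] [Algebra k[X] A] [Algebra A K] [IsScalarTower k[X] A K]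
    [IsIntegralClosure A k[X] K], Ram F A

end ram

end Pool.Agent.Q45.TG
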