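import Pool.Agent.Q45.TG.Main
import Mathlib.GroupTheory.IndexNormal

/-!
# Galois extensions whose degree is a power of `p` are towers of cyclic extensions
-/

set_option autoImplicit false
set_option linter.all false

open Polynomial IsDedekindDomain WithZero
open scoped Classical

namespace Pool.Agent.Q45.TG

open Pool.Agent.Q45.TW (cst)
open Pool.Agent.Q45.TL (IsTower)

/-- The tower with one more root. -/
theorem IsTower.snoc {p : ℕ} {k : Type} [Field k] {K' K : Type} [Field K'] [Field K]
    [Algebra k[X] K'] [Algebra k[X] K] [Algebra K' K] [IsScalarTower k[X] K' K] {s : K}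
    (hs : ∃ D : K', s ^ p = algebraMap K' K D) (htop : IntermediateField.adjoin K' {s} = ⊤) {m : ℕ}
    {s' : ℕ → K'} (h : IsTower p k K' m s') :
    IsTower p k K (m + 1) (fun j => if j = m then s else algebraMap K' K (s' j)) := by
  set u : ℕ → K := fun j => if j = m then s else algebraMap K' K (s' j) with hu
  have hul : ∀ j < m, u j = algebraMap K' K (s' j) := fun j hj => if_neg hj.ne
  have hum : u m = s := if_pos rfl
  have himg : ∀ i ≤ m, algebraMap K' K '' (Set.range (algebraMap k[X] K') ∪ s' '' {j | j < i}) =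
      Set.range (algebraMap k[X] K) ∪ u '' {j | j < i} := by
    intro i hi
    rw [Set.image_union]
    congr 1
    · rw [← Set.range_comp]
      congr 1
      funext p
      exact (IsScalarTower.algebraMap_apply k[X] K' K p).symm
    · rw [Set.image_image]
      ext x
      constructor
      · rintro ⟨j, hj, rfl⟩
        exact ⟨j, hj, hul j (lt_of_lt_of_le hj hi)⟩
      · rintro ⟨j, hj, rfl⟩
        exact ⟨j, hj, (hul j (lt_of_lt_of_le hj hi)).symm⟩
  have hcl : ∀ i ≤ m, ∀ x : K', x ∈ Subfield.closure (Set.range (algebraMap k[X] K') ∪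
      s' '' {j | j < i}) → algebraMap K' K x ∈
      Subfield.closure (Set.range (algebraMap k[X] K) ∪ u '' {j | j < i}) := by
    intro i hi x hx
    rw [← himg i hi, ← RingHom.map_field_closure]
    exact Subfield.mem_map.2 ⟨x, hx, rfl⟩
  have hall : ∀ x : K', algebraMap K' K x ∈
      Subfield.closure (Set.range (algebraMap k[X] K) ∪ u '' {j | j < m}) := fun x =>
    hcl m le_rfl x (by rw [h.gen]; trivial)
  obtain ⟨D, hD⟩ := hs
  refine ⟨?_, fun i hi => ?_, ?_⟩
  · rw [IsScalarTower.algebraMap_eq k[X] K' K]
    exact (algebraMap K' K).injective.comp h.inj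
  · rcases Nat.lt_succ_iff_lt_or_eq.1 hi with h1 | rfl
    · rw [hul i h1, ← map_pow]
      exact hcl i h1.le _ (h.pow i h1)
    · rw [hum, hD]
      exact hall D
  · rw [eq_top_iff]
    rintro x -
    have hle : Subfield.closure (Set.range (algebraMap k[X] K) ∪ u '' {j | j < m}) ≤
        Subfield.closure (Set.range (algebraMap k[X] K) ∪ u '' {j | j < m + 1}) := by
      refine Subfield.closure_mono (Set.union_subset_union_right _ (Set.image_mono ?_))
      intro j hj
      exact Nat.lt_succ_of_lt hj
    have hx : x ∈ IntermediateField.adjoin K' {s} := by rw [htop]; trivial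
    refine IntermediateField.adjoin_induction K' (p := fun x _ => x ∈ Subfield.closure
      (Set.range (algebraMap k[X] K) ∪ u '' {j | j < m + 1})) ?_ ?_ ?_ ?_ ?_ hx
    · intro y hy
      rw [Set.mem_singleton_iff] at hy
      rw [hy]
      exact Subfield.subset_closure (Or.inr ⟨m, Nat.lt_succ_self m, hum⟩)
    · intro y
      exact hle (hall y)
    · intro x y _ _ hx hy
      exact add_mem hx hy
    · intro x _ hx
      exact inv_mem hx
    · intro x y _ _ hx hy
      exact mul_mem hx hy

/-- **A Galois extension of degree `p ^ n` of a tower is a tower.** -/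
theorem tower_of_gal {p : ℕ} (hp : p.Prime) {k : Type} [Field k] {ζ : k}
    (hζ : IsPrimitiveRoot ζ p) : ∀ (n : ℕ) (K' L : Type) [Field K'] [Field L] [Algebra k[X] K']
    [Algebra k[X] L] [Algebra K' L] [IsScalarTower k[X] K' L] [FiniteDimensional K' L]
    [IsGalois K' L], Module.finrank K' L = p ^ n → (∃ (m : ℕ) (s' : ℕ → K'), IsTower p k K' m s') →
    ∃ (m : ℕ) (s : ℕ → L), IsTower p k L m s := by
  intro n
  induction n with
  | zero =>
    rintro K' L _ _ _ _ _ _ _ _ hfr ⟨m, s', h⟩
    rw [pow_zero] at hfr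
    have h1 : (⊥ : IntermediateField K' L) = ⊤ :=
      IntermediateField.bot_eq_top_of_finrank_adjoin_eq_one fun x => by
        have h3 := Module.finrank_mul_finrank K' (IntermediateField.adjoin K' {x}) L
        rw [hfr] at h3
        exact Nat.eq_one_of_mul_eq_one_right h3
    refine ⟨m + 1, _, IsTower.snoc (s := (1 : L)) ⟨1, by rw [one_pow, map_one]⟩ ?_ h⟩
    rw [eq_top_iff, ← h1]
    exact bot_le
  | succ n ih =>
    rintro K' L _ _ _ _ _ _ _ _ hfr ⟨m, s', h⟩
    haveI : Fact p.Prime := ⟨hp⟩
    have hcard : Nat.card (L ≃ₐ[K'] L) = p ^ (n + 1) := by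
      rw [IsGalois.card_aut_eq_finrank, hfr]
    obtain ⟨H, hH⟩ := Sylow.exists_subgroup_card_pow_prime (G := L ≃ₐ[K'] L) p (n := n)
      (by rw [hcard]; exact pow_dvd_pow _ (Nat.le_succ n))
    have hidx : H.index = p := by
      have h1 := H.card_mul_index
      rw [hH, hcard, pow_succ] at h1
      exact Nat.eq_of_mul_eq_mul_left (pow_pos hp.pos n) h1
    haveI : H.Normal := by
      refine Subgroup.normal_of_index_eq_minFac_card ?_
      rw [hidx, hcard, hp.pow_minFac (Nat.succ_ne_zero n)]
    set M := IntermediateField.fixedField H with hM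
    haveI : IsGalois K' M := inferInstance
    have hML : Module.finrank M L = p ^ n := by
      rw [hM, IntermediateField.finrank_fixedField_eq_card, hH]
    have hKM : Module.finrank K' M = p := by
      have h1 := Module.finrank_mul_finrank K' M L
      rw [hML, hfr, pow_succ'] at h1
      exact Nat.eq_of_mul_eq_mul_right (pow_pos hp.pos n) h1
    haveI : IsCyclic (M ≃ₐ[K'] M) := isCyclic_of_prime_card (p := p) (by
      rw [IsGalois.card_aut_eq_finrank, hKM])
    have hroot : IsPrimitiveRoot (cst k K' ζ) p := hζ.map_of_injective (cst k K').injective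
    haveI : NeZero p := ⟨hp.ne_zero⟩
    obtain ⟨α, ⟨D, hD⟩, hα⟩ := exists_root_adjoin_eq_top_of_isCyclic K' M (by
      rw [hKM]
      exact ⟨_, (mem_primitiveRoots hp.pos).2 hroot⟩)
    rw [hKM] at hD
    haveI : IsScalarTower k[X] M L := IsScalarTower.of_algebraMap_eq fun p => rfl
    exact ih M L hML ⟨m + 1, _, IsTower.snoc (s := α) ⟨D, hD.symm⟩ hα h⟩

/-- The tower over the field `k(s)` itself. -/
theorem tower_base {p : ℕ} {k : Type} [Field k] {K : Type} [Field K] [Algebra k[X] K]
    (hK : IsFractionRing k[X] K) : IsTower p k K 0 (fun _ => 0) := by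
  refine ⟨IsFractionRing.injective k[X] K, fun i hi => absurd hi (Nat.not_lt_zero i), ?_⟩
  rw [eq_top_iff]
  rintro x -
  obtain ⟨a, b, -, rfl⟩ := IsFractionRing.div_surjective (A := k[X]) x
  exact div_mem (Subfield.subset_closure (Or.inl ⟨a, rfl⟩)) (Subfield.subset_closure
    (Or.inl ⟨b, rfl⟩))

end Pool.Agent.Q45.TG
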