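import Pool.Agent.Q45.TG.Reg

/-!
# The theorem over towers of cyclic extensions of degree `p`
-/

set_option autoImplicit false
set_option linter.all false

open Polynomial IsDedekindDomain WithZero
open scoped Classical

namespace Pool.Agent.Q45.TG

open Pool.Agent.Q45.TW (cst IsGeom)
open Pool.Agent.Y160.SE (IsPw)
open Pool.Agent.Q45.GP (Regular TateOver)
open Pool.Agent.Y160.SQ
open Pool.Agent.Y160.RK (ptCl spanD gen_iter no_tor_base)
open Pool.Agent.Q45.TT (FS FS.base exists_alg exists_ic exists_above exists_irr val_under exists_sub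
  HasDer exists_algG ram_up)
open Pool.Agent.Q45.TL (IsTower IsKum uniq_div zeta_p)

section main

variable {p e q : ℕ} {k : Type} [Field k] {F : k[X][X]} {ζ : k} {K : Type} [Field K]
  [Algebra k[X] K]

/-- The field `K(θ)` and its ring of integers. -/
theorem exists_field (hF : F.Monic) (hirr : Irreducible (fF F K)) (hsep : (fF F K).Separable)
    (hfs : FS k K) (A : Type) [CommRing A] [Algebra k[X] A] [Algebra A K]
    [IsScalarTower k[X] A K] [IsIntegralClosure A k[X] K] :
    ∃ (L R : Type) (_ : Field L) (_ : Algebra k[X] L) (_ : Algebra K L) (_ : CommRing R)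
      (_ : IsDedekindDomain R) (_ : Algebra k[X] R) (_ : Algebra R L) (_ : Algebra A R) (θ : L),
      IsScalarTower k[X] K L ∧ IsScalarTower k[X] R L ∧ IsFractionRing R L ∧
      IsIntegralClosure R k[X] L ∧ Algebra.IsIntegral A R ∧
      (∀ a : A, algebraMap K L (algebraMap A K a) = algebraMap R L (algebraMap A R a)) ∧
      aeval θ (fF F K) = 0 ∧ IntermediateField.adjoin K {θ} = ⊤ ∧ FS k L := by
  haveI : Fact (Irreducible (fF F K)) := ⟨hirr⟩
  have hm : (fF F K).Monic := fF_monic hF _
  have hθ : aeval (AdjoinRoot.root (fF F K)) (fF F K) = 0 := by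
    rw [AdjoinRoot.aeval_eq, AdjoinRoot.mk_self]
  have htop : IntermediateField.adjoin K {AdjoinRoot.root (fF F K)} = ⊤ :=
    IntermediateField.adjoin_root_eq_top _
  have hfsL : FS k (AdjoinRoot (fF F K)) := hfs.trans (TW.fin_of hm hθ htop)
    (TW.sep_of hsep hθ htop)
  obtain ⟨R, r1, r2, r3, r4, r5⟩ := exists_ic (k := k) (AdjoinRoot (fF F K))
  obtain ⟨φ, hφ1, hφ2⟩ := exists_alg (k := k) (K' := K) (K := AdjoinRoot (fF F K)) A R
  haveI := hfsL.finite R
  letI : Algebra A R := φ.toAlgebra
  haveI : IsScalarTower k[X] A R := IsScalarTower.of_algebraMap_eq fun p => (hφ2 p).symm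
  haveI : Module.Finite A R := Module.Finite.of_restrictScalars_finite k[X] A R
  exact ⟨AdjoinRoot (fF F K), R, inferInstance, inferInstance, inferInstance, r1, hfsL.ded R, r2, r3,
    inferInstance, AdjoinRoot.root _, inferInstance, r4, hfsL.frac R, r5,
    Algebra.IsIntegral.of_finite A R, fun a => (hφ1 a).symm, hθ, htop, hfsL⟩

theorem good (hp : p.Prime) (hqe : q = p ^ e) (he : e ≠ 0) (hζ : IsPrimitiveRoot ζ q)
    (hF : F.Monic) (hcop : p.Coprime F.natDegree) (hsep : (fF F K).Separable) :
    Good q (cst k K ζ) (fF F K) := by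
  refine ⟨⟨p, e, hp.prime, Nat.pos_of_ne_zero he, hqe.symm⟩,
    hζ.map_of_injective (f := cst k K) (cst k K).injective, fF_monic hF _, hsep, ?_⟩
  rw [fF_natDegree hF, hqe]
  exact hcop.pow_left e

/-- The Tate-Shafarevich group and the divisibility, from the descent. -/
theorem sha_of (hp : p.Prime) (hqe : q = p ^ e) (he : e ≠ 0) (hζ : IsPrimitiveRoot ζ q)
    (hF : F.Monic) (hcop : p.Coprime F.natDegree) (hfs : FS k K) (hirr : Irreducible (fF F K))
    (hsep : (fF F K).Separable) {A : Type} [CommRing A]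
    [IsDedekindDomain A] [Algebra A K] [IsFractionRing A K] [Algebra k[X] A]
    [IsScalarTower k[X] A K] [IsIntegralClosure A k[X] K] (hS : Regular K (fF F A))
    (htriv : Triv q F K) :
    ∃ hgd : Good q (cst k K ζ) (fF F K), Pool.Agent.Y160.SH.ShaTriv p q A (fF F K) ∧
      ∀ x : Jac q (fF F K) K, ∃ v : Jac q (fF F K) K, x = pe hgd K (1 - X) v := by
  obtain ⟨L, R, i1, i2, i3, i4, i5, i6, i7, i8, θ, i9, i10, i11, i12, hint, hcomp, hθ, htop, hfsL⟩ :=
    exists_field hF hirr hsep hfs A
  have hgd : Good q (cst k K ζ) (fF F K) := good hp hqe he hζ hF hcop hsep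
  refine ⟨hgd, ?_⟩
  haveI := hint
  letI : Algebra A L := ((algebraMap K L).comp (algebraMap A K)).toAlgebra
  haveI : IsScalarTower A K L := IsScalarTower.of_algebraMap_eq fun x => rfl
  haveI : IsScalarTower A R L := IsScalarTower.of_algebraMap_eq fun x => hcomp x
  haveI : Module.IsTorsionFree A R := by
    rw [Module.isTorsionFree_iff_algebraMap_injective]
    exact TT.tf_of (K' := K) (K := L) (IsFractionRing.injective A K) fun a => (hcomp a).symm
  have hff : (fF F A).map (algebraMap A K) = fF F K :=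
    fF_map _ fun p => (IsScalarTower.algebraMap_apply k[X] A K p).symm
  have hq0 : q ≠ 0 := by rw [hqe]; exact pow_ne_zero _ hp.ne_zero
  have hpts : ∀ z : L, z ≠ 0 → (∀ v : HeightOneSpectrum R, IsPw q (v.valuation L z)) →
      (∃ y : K, Algebra.norm K z = y ^ q) →
      ∃ (u : K) (g : L) (S : Multiset (K[X] × K[X])), u ≠ 0 ∧ g ≠ 0 ∧
        (∀ P ∈ S, P ∈ (∅ : Set (K[X] × K[X]))) ∧ z = algebraMap K L u * g ^ q * aeval θ (dvP S) := by
    intro z hz hev hno
    obtain ⟨c, hc⟩ := htriv L θ hθ htop R z hz hev hno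
    have hc0 : c ≠ 0 := by
      rintro rfl
      rw [zero_pow hq0] at hc
      exact hz hc
    refine ⟨1, c, 0, one_ne_zero, hc0, fun P hP => absurd hP (Multiset.notMem_zero P), ?_⟩
    rw [hc, map_one, one_mul]
    have h5 : dvP (0 : Multiset (K[X] × K[X])) = 1 := rfl
    rw [h5, map_one, mul_one]
  have key : ∀ (f1 : K[X]) (h : (fF F A).map (algebraMap A K) = f1)
      (hgd : Good q (cst k K ζ) f1), Irreducible f1 → aeval θ f1 = 0 →
      Pool.Agent.Y160.SH.ShaTriv p q A f1 ∧
      ∀ x : Jac q f1 K, ∃ v : Jac q f1 K, x = pe hgd K (1 - X) v := by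
    rintro f1 rfl hgd hirr hθ'
    obtain ⟨h1, h3⟩ := Pool.Agent.Q45.GP.main (p := p) (m := e) (ℓ := q) (A := A) (K := K) (N := L)
      (R := R) hp hqe (f := fF F A) (ζ := cst k K ζ) hgd (fF_monic hF _)
      hS hirr (θ := θ) hθ' htop ∅ (fun P hP => absurd hP (Set.notMem_empty P)) hpts
    refine ⟨h1, fun x => ?_⟩
    obtain ⟨T, y, hT, hx⟩ := h3 x
    have hT0 : T = 0 := by
      rw [Multiset.eq_zero_iff_forall_notMem]
      exact fun P hP => Set.notMem_empty P (hT P hP)
    refine ⟨y, ?_⟩
    rw [hx, hT0, Multiset.map_zero, Multiset.sum_zero, zero_add]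
  exact key _ hff hgd hirr hθ

theorem RamK.of' {A : Type} [CommRing A] [Algebra k[X] A] [Algebra A K] [IsScalarTower k[X] A K]
    [IsIntegralClosure A k[X] K] (hfs : FS k K) (h : Ram F A) : RamK F K := RamK.of hfs h

/-- The fibre at a ramified place is separable. -/
theorem sep_of_ram {A : Type} [CommRing A] [IsDedekindDomain A] [Algebra k[X] A]
    (v : HeightOneSpectrum A) {b : k[X]} (hbv : algebraMap k[X] A b ∈ v.asIdeal)
    (hs : (redF F b).Separable) : ((fF F A).map (Ideal.Quotient.mk v.asIdeal)).Separable := by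
  have h1 : ∀ x ∈ Ideal.span {b}, ((Ideal.Quotient.mk v.asIdeal).comp (algebraMap k[X] A)) x = 0 := by
    intro x hx
    obtain ⟨y, rfl⟩ := Ideal.mem_span_singleton.1 hx
    rw [map_mul]
    have h3 : ((Ideal.Quotient.mk v.asIdeal).comp (algebraMap k[X] A)) b = 0 :=
      Ideal.Quotient.eq_zero_iff_mem.2 hbv
    rw [h3, zero_mul]
  have h3 := hs.map (f := Ideal.Quotient.lift (Ideal.span {b})
    ((Ideal.Quotient.mk v.asIdeal).comp (algebraMap k[X] A)) h1)
  rw [redF, Polynomial.map_map] at h3
  rw [fF, Polynomial.map_map]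
  exact h3

/-- **The Tate-Shafarevich group over the tower.** -/
theorem sha_tower (hp : p.Prime) (hqe : q = p ^ e) (he : e ≠ 0) (hζ : IsPrimitiveRoot ζ q)
    (hF : F.Monic) (hirrF : Irreducible F) (hpos : 0 < F.natDegree) (hcop : p.Coprime F.natDegree)
    (hd : derivative F ≠ 0)
    (hsm : ∃ a₁ a₂ a₃ : k[X][X], a₁ * F + a₂ * derivative F + a₃ * ds F = 1) (hB : IsBr p F)
    {m : ℕ} {s : ℕ → K} (h : IsTower p k K m s)
    {A : Type} [CommRing A] [IsDedekindDomain A] [Algebra A K] [IsFractionRing A K]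
    [Algebra k[X] A] [IsScalarTower k[X] A K] [IsIntegralClosure A k[X] K] (hram : Ram F A) :
    Pool.Agent.Y160.SH.ShaTriv p q A (fF F K) ∧ ∀ x : Jac q (fF F K) K, ∃! y, p • y = x := by
  have hζp := zeta_p hp hqe he hζ
  have hfs : FS k K := h.fs hp hζp
  have hirr : Irreducible (fF F K) := irr_tower hp hζp hF hirrF hpos hcop h
  have hsep : (fF F K).Separable := sep_fF hfs.inj hirr hd
  have hreg : Regular K (fF F A) := regular_of_der hsm (h.hasDer hp hζp) fun v b hb hbv =>
    sep_of_ram v (Ideal.pow_le_self two_ne_zero hbv) (hram v b hb hbv).2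
  have htriv : Triv p F K := triv_tower hp hζp hF hirrF hpos hcop hd hB h (RamK.of hfs hram)
  have htrivq : Triv q F K := by
    rw [hqe] at hζ ⊢
    exact htriv.pow hp hF hpos e hζ
  obtain ⟨hgd, h1, h3⟩ := sha_of hp hqe he hζ hF hcop hfs hirr hsep (A := A) hreg htrivq
  exact ⟨h1, uniq_div hp hqe hgd hirr h3⟩

end main

section tate

variable {p e q : ℕ} {k k' : Type} [Field k] [Field k'] [Algebra k k'] {F : k[X][X]} {ζ : k}
  {K E : Type} [Field K] [Algebra k[X] K] [Field E] [Algebra k'[X] E] [Algebra K E]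

/-- The polynomial `F` over `k'`. -/
noncomputable def upF (k' : Type) {k : Type} [Field k] [Field k'] [Algebra k k'] (F : k[X][X]) :
    k'[X][X] := F.map (mapRingHom (algebraMap k k'))

theorem fF_geom (hE : IsGeom k k' K E) : fF (upF k' F) E = (fF F K).map (algebraMap K E) := by
  unfold fF upF
  rw [Polynomial.map_map, Polynomial.map_map]
  congr 1
  exact RingHom.ext fun p => (hE.comp p).symm

/-- **The Tate conjecture over the tower.** -/
theorem tate_tower [IsGalois k k'] (hp : p.Prime) (hqe : q = p ^ e) (he : e ≠ 0)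
    (hζ : IsPrimitiveRoot ζ q) (hF : F.Monic) (hirrF : Irreducible F) (hpos : 0 < F.natDegree)
    (hcop : p.Coprime F.natDegree) (hd : derivative F ≠ 0)
    (hsm : ∃ a₁ a₂ a₃ : k[X][X], a₁ * F + a₂ * derivative F + a₃ * ds F = 1) (hB : IsBr p F)
    (hgi : Irreducible (upF k' F)) {m : ℕ} {s : ℕ → K}
    (h : IsTower p k K m s) {A : Type} [CommRing A] [IsDedekindDomain A] [Algebra A K]
    [IsFractionRing A K] [Algebra k[X] A] [IsScalarTower k[X] A K] [IsIntegralClosure A k[X] K]
    (hram : Ram F A) (hE : IsGeom k k' K E) {A' : Type} [CommRing A'] [IsDedekindDomain A']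
    [Algebra A' E] [IsFractionRing A' E] [Algebra k'[X] A'] [IsScalarTower k'[X] A' E]
    [IsIntegralClosure A' k'[X] E] : TateOver (F := E) p q A' (fF F K) := by
  have hζp := zeta_p hp hqe he hζ
  have hfs : FS k K := h.fs hp hζp
  have hirr : Irreducible (fF F K) := irr_tower hp hζp hF hirrF hpos hcop h
  have hsep : (fF F K).Separable := sep_fF hfs.inj hirr hd
  have htriv : Triv p F K := triv_tower hp hζp hF hirrF hpos hcop hd hB h (RamK.of hfs hram)
  have htrivq : Triv q F K := by
    rw [hqe] at hζ ⊢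
    exact htriv.pow hp hF hpos e hζ
  have hE' : IsTower p k' E m (fun i => algebraMap K E (s i)) := h.up hE
  have hζp' : IsPrimitiveRoot (algebraMap k k' (ζ ^ p ^ (e - 1))) p :=
    hζp.map_of_injective (algebraMap k k').injective
  have hF' : (upF k' F).Monic := hF.map _
  have hdeg : (upF k' F).natDegree = F.natDegree := hF.natDegree_map _
  have hirrE : Irreducible (fF (upF k' F) E) := irr_tower hp hζp' hF' hgi (by rwa [hdeg])
    (by rwa [hdeg]) hE'
  have hsm' : ∃ a₁ a₂ a₃ : k'[X][X], a₁ * upF k' F + a₂ * derivative (upF k' F) +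
      a₃ * ds (upF k' F) = 1 := by
    obtain ⟨a₁, a₂, a₃, h1⟩ := hsm
    refine ⟨upF k' a₁, upF k' a₂, upF k' a₃, ?_⟩
    have h3 := congrArg (Polynomial.map (mapRingHom (algebraMap k k'))) h1
    rw [Polynomial.map_add, Polynomial.map_add, Polynomial.map_mul, Polynomial.map_mul,
      Polynomial.map_mul, Polynomial.map_one] at h3
    unfold upF
    rw [derivative_map, ds_map]
    exact h3
  have hS : Regular E (fF (upF k' F) A') := by
    refine regular_of_der hsm' (hE'.hasDer hp hζp') fun v b' hb' hbv => ?_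
    obtain ⟨b, w, hb, hbw, hbv'⟩ := ram_up (A := A) hE hfs v b' hb' hbv
    have hs := (hram w b hb hbw).2
    have h1 : ∀ x ∈ Ideal.span {b}, (((Ideal.Quotient.mk v.asIdeal).comp (algebraMap k'[X] A')).comp
        (mapRingHom (algebraMap k k'))) x = 0 := by
      intro x hx
      obtain ⟨y, rfl⟩ := Ideal.mem_span_singleton.1 hx
      rw [map_mul]
      have h3 : (((Ideal.Quotient.mk v.asIdeal).comp (algebraMap k'[X] A')).comp
        (mapRingHom (algebraMap k k'))) b = 0 := Ideal.Quotient.eq_zero_iff_mem.2 hbv'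
      rw [h3, zero_mul]
    have h3 := hs.map (f := Ideal.Quotient.lift (Ideal.span {b})
      (((Ideal.Quotient.mk v.asIdeal).comp (algebraMap k'[X] A')).comp
        (mapRingHom (algebraMap k k'))) h1)
    rw [redF, Polynomial.map_map] at h3
    unfold fF upF
    rw [Polynomial.map_map, Polynomial.map_map]
    exact h3
  obtain ⟨L, R, i1, i2, i3, i4, i5, i6, i7, i8, θ, i9, i10, i11, i12, hint, hcomp, hθ, htop, hfsL⟩ :=
    exists_field hF hirr hsep hfs A
  have hgd : Good q (cst k K ζ) (fF F K) := good hp hqe he hζ hF hcop hsep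
  haveI := hint
  have hq0 : q ≠ 0 := by rw [hqe]; exact pow_ne_zero _ hp.ne_zero
  set j := algebraMap k k' with hj
  obtain ⟨ψ, hψ1, hψ2⟩ := exists_algG hE A A'
  letI : Algebra A A' := ψ.toAlgebra
  haveI : Algebra.IsIntegral A A' := by
    have h1 : (algebraMap k'[X] A').IsIntegral := fun x => IsIntegralClosure.isIntegral k'[X] E x
    have h3 : ((algebraMap k'[X] A').comp (mapRingHom j)).IsIntegral :=
      RingHom.IsIntegral.trans _ _ Pool.Agent.TH115.GD.poly_integral h1
    have h4 : (algebraMap k'[X] A').comp (mapRingHom j) =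
        ψ.comp (algebraMap k[X] A) := RingHom.ext fun p => (hψ2 p).symm
    rw [h4] at h3
    exact ⟨RingHom.IsIntegral.tower_top _ _ h3⟩
  letI : Algebra k K := ((algebraMap k[X] K).comp C).toAlgebra
  letI : Algebra k' E := ((algebraMap k'[X] E).comp C).toAlgebra
  letI : Algebra k E := ((algebraMap k' E).comp j).toAlgebra
  haveI : IsScalarTower k k' E := IsScalarTower.of_algebraMap_eq fun x => rfl
  haveI : IsScalarTower k K E := IsScalarTower.of_algebraMap_eq fun x => by
    show algebraMap k'[X] E (C (j x)) = algebraMap K E (algebraMap k[X] K (C x))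
    rw [hE.comp, map_C]
  letI : Algebra k' A' := ((algebraMap k'[X] A').comp C).toAlgebra
  haveI : IsScalarTower k' A' E := IsScalarTower.of_algebraMap_eq fun x =>
    IsScalarTower.algebraMap_apply k'[X] A' E (C x)
  have hfA : (fF (upF k' F) A').map (algebraMap A' E) = (fF F K).map (algebraMap K E) := by
    rw [fF_map (algebraMap A' E) (fun p => (IsScalarTower.algebraMap_apply k'[X] A' E p).symm)]
    exact fF_geom hE
  exact Pool.Agent.Q45.GP.tateC k (R := R) (A := A) (p := p) (m := e) (ℓ := q) hp hqe hE.gen hψ1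
    hcomp hfA hgd (fF_monic hF' _) hS hirr (by
      rw [← fF_geom hE]
      exact hirrE) hθ htop ∅ (fun P hP => absurd hP (Set.notMem_empty P)) (fun z hz hev hno => by
      obtain ⟨c, hc⟩ := htrivq L θ hθ htop R z hz hev hno
      have hc0 : c ≠ 0 := by
        rintro rfl
        rw [zero_pow hq0] at hc
        exact hz hc
      refine ⟨1, c, 0, one_ne_zero, hc0, fun P hP => absurd hP (Multiset.notMem_zero P), ?_⟩
      rw [hc, map_one, one_mul]
      have h5 : dvP (0 : Multiset (K[X] × K[X])) = 1 := rfl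
      rw [h5, map_one, mul_one])

end tate

end Pool.Agent.Q45.TG
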