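import Pool.Agent.Q45.TG.Gal

/-!
# The polynomials `g(x) + s`
-/

set_option autoImplicit false
set_option linter.all false

open Polynomial IsDedekindDomain WithZero
open scoped Classical

namespace Pool.Agent.Q45.TG

open Pool.Agent.Q45.TW (cst ff ff_monic ff_natDegree)

section rat

variable {k : Type} [Field k]

/-- The polynomial `g(x) + s` over `k[s]`. -/
noncomputable def gs (g : k[X]) : k[X][X] := g.map C + C X

theorem gs_eq (g : k[X]) : gs g = ff g k[X] := rfl

theorem gs_monic {g : k[X]} (hg : g.Monic) (hpos : 0 < g.natDegree) : (gs g).Monic :=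
  ff_monic (A := k[X]) hg hpos

theorem gs_natDegree {g : k[X]} (hg : g.Monic) (hpos : 0 < g.natDegree) :
    (gs g).natDegree = g.natDegree := ff_natDegree (A := k[X]) hg hpos

theorem gs_irr {g : k[X]} (hg : g.Monic) (hpos : 0 < g.natDegree) : Irreducible (gs g) := by
  have h1 := TT.irr_base (g := g) hg hpos (K := FractionRing k[X]) inferInstance
  have h3 : ff g (FractionRing k[X]) = (gs g).map (algebraMap k[X] (FractionRing k[X])) := by
    rw [gs_eq]
    exact (TW.ff_map (g := g) (algebraMap k[X] (FractionRing k[X])) fun p => rfl).symm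
  rw [h3] at h1
  exact ((gs_monic hg hpos).irreducible_iff_irreducible_map_fraction_map
    (K := FractionRing k[X])).2 h1

theorem gs_der {g : k[X]} (hd : derivative g ≠ 0) : derivative (gs g) ≠ 0 := by
  unfold gs
  rw [derivative_add, derivative_C, add_zero, derivative_map]
  exact (Polynomial.map_ne_zero_iff C_injective).2 hd

theorem gs_ds (g : k[X]) : ds (gs g) = 1 := by
  refine Polynomial.ext fun n => ?_
  rw [coeff_ds, gs, coeff_add, coeff_map, coeff_C, coeff_one]
  split_ifs with h
  · rw [derivative_add, derivative_C, derivative_X, zero_add]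
  · rw [add_zero, derivative_C]

theorem gs_smooth (g : k[X]) : ∃ a₁ a₂ a₃ : k[X][X],
    a₁ * gs g + a₂ * derivative (gs g) + a₃ * ds (gs g) = 1 :=
  ⟨0, 0, 1, by rw [gs_ds]; ring⟩

/-- The curve `g(x) + s = 0` is the affine line. -/
theorem gs_isBr {p : ℕ} (g : k[X]) : IsBr p (gs g) := by
  obtain ⟨α, e, h1, -, h3, h4⟩ := TW.pair (g := g) (cs := []) (A := k[X]) (R := k[X])
    (TW.IsTw.nil _ fun _ => 0) (TW.IsTw.nil _ fun _ => 0)
  have h5 : ∀ c : k, e (AdjoinRoot.of (gs g) (C c)) = C c := by
    intro c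
    have h6 : e (AdjoinRoot.of (gs g) (C c)) = α (C c) := h3 (C c)
    rw [h6]
    have h7 := h1 (C c)
    rw [C_comp] at h7
    exact h7
  have e₁ : {e' : AdjoinRoot (gs g) ≃+* k[X] // ∀ c : k, e' (AdjoinRoot.of (gs g) (C c)) = C c} :=
    ⟨e, h5⟩
  obtain ⟨e', he'⟩ := e₁
  haveI : IsDomain (AdjoinRoot (gs g)) := e'.toMulEquiv.isDomain_iff.2 inferInstance
  haveI : IsPrincipalIdealRing (AdjoinRoot (gs g)) :=
    IsPrincipalIdealRing.of_surjective (e'.symm : k[X] →+* AdjoinRoot (gs g)) e'.symm.surjective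
  refine ⟨inferInstance, fun u => ?_, fun J _ => IsPrincipalIdealRing.principal J⟩
  obtain ⟨c, hc, hc1⟩ := Polynomial.isUnit_iff.1 (u.isUnit.map e')
  refine ⟨c, ?_⟩
  apply e'.injective
  rw [he', hc1]

theorem irr_of_comp {κ : Type} [Field κ] [Algebra k κ] {g : k[X]} (hg : g.Monic)
    (hpos : 0 < g.natDegree) {b : k[X]} (hb : Irreducible b) (hirr : Irreducible (b.comp (-g)))
    (ρ : k[X] →+* κ) (hρC : ρ.comp C = algebraMap k κ) (hρb : ρ b = 0)
    (hkκ : Module.finrank k κ = b.natDegree) : Irreducible (g.map (ρ.comp C) + C (ρ X)) := by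
  set f : κ[X] := g.map (ρ.comp C) + C (ρ X) with hf
  have hdeg : (C (ρ X) : κ[X]).degree < (g.map (ρ.comp C)).degree := by
    rw [hg.degree_map]
    exact lt_of_le_of_lt degree_C_le (natDegree_pos_iff_degree_pos.1 hpos)
  have hfm : f.Monic := (hg.map _).add_of_left hdeg
  have hfd : f.natDegree = g.natDegree := by rw [hf, natDegree_add_C, hg.natDegree_map]
  have hnu : ¬ IsUnit f := by
    intro h
    have h1 := natDegree_eq_zero_of_isUnit h
    omega
  obtain ⟨h, hh, hhf⟩ := WfDvdMonoid.exists_irreducible_factor hnu hfm.ne_zero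
  haveI : Fact (Irreducible h) := ⟨hh⟩
  haveI : FiniteDimensional κ (AdjoinRoot h) := (AdjoinRoot.powerBasis hh.ne_zero).finite
  haveI : FiniteDimensional k κ := Module.finite_of_finrank_pos (by
    rw [hkκ]
    exact hb.natDegree_pos)
  haveI : FiniteDimensional k (AdjoinRoot h) := Module.Finite.trans κ (AdjoinRoot h)
  have h1 : Module.finrank κ (AdjoinRoot h) = h.natDegree := by
    rw [(AdjoinRoot.powerBasis hh.ne_zero).finrank, AdjoinRoot.powerBasis_dim]
  have h3 : Module.finrank k (AdjoinRoot h) = b.natDegree * h.natDegree := by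
    rw [← Module.finrank_mul_finrank k κ (AdjoinRoot h), hkκ, h1]
  set η : AdjoinRoot h := AdjoinRoot.root h with hη
  set σ : k[X] →+* AdjoinRoot h := (AdjoinRoot.of h).comp ρ with hσ
  have hσC : σ.comp C = algebraMap k (AdjoinRoot h) := by
    have h4 : σ.comp C = (AdjoinRoot.of h).comp (ρ.comp C) := rfl
    rw [h4, hρC]
    rfl
  have hσb : σ b = 0 := by
    show AdjoinRoot.of h (ρ b) = 0
    rw [hρb, map_zero]
  have hgη : aeval η g = -σ X := by
    obtain ⟨c, hc⟩ := hhf
    have h4 : eval₂ (AdjoinRoot.of h) η f = 0 := by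
      rw [hc, eval₂_mul, AdjoinRoot.eval₂_root, zero_mul]
    rw [hf, eval₂_add, eval₂_map, eval₂_C] at h4
    have h5 : (AdjoinRoot.of h).comp (ρ.comp C) = algebraMap k (AdjoinRoot h) := hσC
    rw [h5] at h4
    exact eq_neg_of_add_eq_zero_left h4
  have hbη : aeval η (b.comp (-g)) = 0 := by
    rw [aeval_comp, map_neg, hgη, neg_neg]
    have h5 : (aeval (σ X) b : AdjoinRoot h) = σ b := by
      have h6 : eval₂RingHom (σ.comp C) (σ X) = σ := by
        apply Polynomial.ringHom_ext
        · intro a
          rw [coe_eval₂RingHom, eval₂_C]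
          rfl
        · rw [coe_eval₂RingHom, eval₂_X]
      have h7 := congrArg (fun f : k[X] →+* AdjoinRoot h => f b) h6
      simp only [coe_eval₂RingHom] at h7
      rw [hσC] at h7
      exact h7
    rw [h5, hσb]
  have hint : IsIntegral k η := IsIntegral.of_finite k η
  have hmin : (minpoly k η).natDegree = b.natDegree * g.natDegree := by
    have h4 : Associated (minpoly k η) (b.comp (-g)) :=
      (minpoly.irreducible hint).associated_of_dvd hirr (minpoly.dvd k η hbη)
    rw [natDegree_eq_of_degree_eq (degree_eq_degree_of_associated h4), natDegree_comp, natDegree_neg]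
  have hle : (minpoly k η).natDegree ≤ Module.finrank k (AdjoinRoot h) := minpoly.natDegree_le η
  rw [hmin, h3] at hle
  have h7 : f.natDegree ≤ h.natDegree := by
    rw [hfd]
    exact Nat.le_of_mul_le_mul_left hle hb.natDegree_pos
  exact (associated_of_dvd_of_natDegree_le hhf hfm.ne_zero h7).irreducible hh

theorem red_eq (g b : k[X]) : redF (gs g) b = g.map ((Ideal.Quotient.mk (Ideal.span {b})).comp C) +
    C (Ideal.Quotient.mk (Ideal.span {b}) X) := by
  unfold redF gs
  rw [Polynomial.map_add, map_C, Polynomial.map_map]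

/-- The polynomial `g(x) + s` is irreducible modulo `b(s)`, if `b(-g)` is irreducible. -/
theorem gs_red {g : k[X]} (hg : g.Monic) (hpos : 0 < g.natDegree) {b : k[X]} (hb : Irreducible b)
    (hirr : Irreducible (b.comp (-g))) : Irreducible (redF (gs g) b) := by
  haveI : (Ideal.span {b}).IsMaximal := PrincipalIdealRing.isMaximal_of_irreducible hb
  letI : Field (k[X] ⧸ Ideal.span {b}) := Ideal.Quotient.field _
  rw [red_eq]
  exact irr_of_comp hg hpos hb hirr (Ideal.Quotient.mk (Ideal.span {b})) rfl
    (Ideal.Quotient.eq_zero_iff_mem.2 (Ideal.mem_span_singleton_self b))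
    finrank_quotient_span_eq_natDegree

/-- The polynomial `g(x) + s` is separable modulo `b(s)`, if `b(-g)` is separable. -/
theorem gs_sep {g : k[X]} {b : k[X]} (hb : Irreducible b) (hs : (b.comp (-g)).Separable) :
    (redF (gs g) b).Separable := by
  haveI : (Ideal.span {b}).IsMaximal := PrincipalIdealRing.isMaximal_of_irreducible hb
  letI : Field (k[X] ⧸ Ideal.span {b}) := Ideal.Quotient.field _
  have h1 := TT.dvd_comp (g := g) (Ideal.Quotient.mk (Ideal.span {b})) (B := b)
    (Ideal.Quotient.eq_zero_iff_mem.2 (Ideal.mem_span_singleton_self b))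
  rw [red_eq]
  exact hs.map.of_dvd h1

end rat

end Pool.Agent.Q45.TG
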