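import Pool.Agent.Q45.TG.Fun

/-!
# The descent in a cyclic extension
-/

set_option autoImplicit false
set_option linter.all false

open Polynomial IsDedekindDomain WithZero
open scoped Classical

namespace Pool.Agent.Q45.TG

open Pool.Agent.Q45.TW (cst)
open Pool.Agent.Y160.SE (IsPw)
open Pool.Agent.Q45.TT (FS FS.base exists_alg exists_ic exists_above exists_irr val_under exists_sub)
open Pool.Agent.Q45.TL (IsTower IsKum kum_up isUnit_p even_down ram_of_odd even_inert irr_up
  tau_comm exists_restr fixed_class norm_class even_hom norm_tau iter_pow)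

section rama

variable {k : Type} [Field k]

theorem RamK.down {F : k[X][X]} {K' K : Type} [Field K'] [Field K] [Algebra k[X] K']
    [Algebra k[X] K] [Algebra K' K] [IsScalarTower k[X] K' K] (h : RamK F K) (hfs' : FS k K')
    (hfs : FS k K) : RamK F K' := by
  intro A' _ _ _ _ _
  obtain ⟨A, a1, a2, a3, a4, a5⟩ := exists_ic (k := k) K
  obtain ⟨φ, hφ1, hφ2⟩ := exists_alg (k := k) (K' := K') (K := K) A' A
  letI : Algebra A' A := φ.toAlgebra
  haveI : IsScalarTower k[X] A' A := IsScalarTower.of_algebraMap_eq fun p => (hφ2 p).symm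
  haveI := hfs.ded A
  haveI := hfs.finite A
  haveI := hfs'.ded A'
  haveI := hfs'.frac A'
  haveI : Module.Finite A' A := Module.Finite.of_restrictScalars_finite k[X] A' A
  haveI : Algebra.IsIntegral A' A := Algebra.IsIntegral.of_finite A' A
  haveI : Module.IsTorsionFree A' A := by
    rw [Module.isTorsionFree_iff_algebraMap_injective]
    exact TT.tf_of (K' := K') (K := K) (IsFractionRing.injective A' K') hφ1
  exact (h A).down

/-- The condition does not depend on the choice of the ring of integers. -/
theorem RamK.of {F : k[X][X]} {K : Type} [Field K] [Algebra k[X] K] (hfs : FS k K) {A : Type}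
    [CommRing A] [Algebra k[X] A] [Algebra A K] [IsScalarTower k[X] A K] [IsIntegralClosure A k[X] K]
    (h : Ram F A) : RamK F K := by
  intro A' _ _ _ _ _
  obtain ⟨φ, hφ1, hφ2⟩ := exists_alg (k := k) (K' := K) (K := K) A' A
  letI : Algebra A' A := φ.toAlgebra
  haveI : IsScalarTower k[X] A' A := IsScalarTower.of_algebraMap_eq fun p => (hφ2 p).symm
  haveI := hfs.ded A
  haveI := hfs.finite A
  haveI := hfs.ded A'
  haveI := hfs.frac A'
  haveI : Module.Finite A' A := Module.Finite.of_restrictScalars_finite k[X] A' A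
  haveI : Algebra.IsIntegral A' A := Algebra.IsIntegral.of_finite A' A
  haveI : Module.IsTorsionFree A' A := by
    rw [Module.isTorsionFree_iff_algebraMap_injective]
    exact TT.tf_of (K' := K) (K := K) (IsFractionRing.injective A' K) hφ1
  exact h.down

end rama

/-- Elements of `K(θ)`, `F(θ, s) = 0`, with valuations divisible by `ℓ` and whose norm is an `ℓ`-th
power are `ℓ`-th powers. -/
def Triv (ℓ : ℕ) {k : Type} [Field k] (F : k[X][X]) (K : Type) [Field K] [Algebra k[X] K] : Prop :=
  ∀ (L : Type) [Field L] [Algebra k[X] L] [Algebra K L] [IsScalarTower k[X] K L] (θ : L),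
    aeval θ (fF F K) = 0 → IntermediateField.adjoin K {θ} = ⊤ →
    ∀ (R : Type) [CommRing R] [IsDedekindDomain R] [Algebra k[X] R] [Algebra R L]
      [IsScalarTower k[X] R L] [IsFractionRing R L] [IsIntegralClosure R k[X] L] (z : L),
      z ≠ 0 → (∀ w : HeightOneSpectrum R, IsPw ℓ (w.valuation L z)) →
      (∃ u : K, Algebra.norm K z = u ^ ℓ) → ∃ c : L, z = c ^ ℓ

section step

variable {p : ℕ} {k : Type} [Field k] {F : k[X][X]} {ζ : k}

/-- The valuations of the element of the smaller field. -/
theorem even_all (hp : p.Prime) (hζ : IsPrimitiveRoot ζ p) (hF : F.Monic) (hpos : 0 < F.natDegree)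
    (hcop : p.Coprime F.natDegree)
    {K' K L' L : Type} [Field K'] [Field K] [Field L'] [Field L]
    [Algebra k[X] K'] [Algebra k[X] K] [Algebra k[X] L'] [Algebra k[X] L]
    [Algebra K' K] [Algebra K' L'] [Algebra K L] [Algebra L' L] [Algebra K' L]
    [IsScalarTower K' K L] [IsScalarTower K' L' L] [IsScalarTower k[X] K' K]
    [IsScalarTower k[X] K' L'] [IsScalarTower k[X] L' L] [IsScalarTower k[X] K L]
    {D : K'} {s : K} (hq : IsKum p (cst k K' ζ) D s) {θ' : L'} (hθ' : aeval θ' (fF F K') = 0)
    (htop' : IntermediateField.adjoin K' {θ'} = ⊤)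
    (htop : IntermediateField.adjoin K {algebraMap L' L θ'} = ⊤)
    (hirr' : Irreducible (fF F K')) (hirr : Irreducible (fF F K)) {m' : ℕ} {s' : ℕ → K'}
    (htw : IsTower p k K' m' s') (hfsL' : FS k L') (hfsL : FS k L) (hram : RamK F K)
    {R' R : Type} [CommRing R'] [CommRing R] [IsDedekindDomain R'] [IsDedekindDomain R]
    [Algebra k[X] R'] [Algebra k[X] R] [Algebra R' L'] [Algebra R L] [IsScalarTower k[X] R' L']
    [IsScalarTower k[X] R L] [IsIntegralClosure R' k[X] L'] [IsIntegralClosure R k[X] L]
    [IsFractionRing R' L'] [IsFractionRing R L]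
    {x : L'} {y : K'} (hy : Algebra.norm K' x = y ^ p)
    (hev : ∀ w : HeightOneSpectrum R, IsPw p (w.valuation L (algebraMap L' L x)))
    (q : HeightOneSpectrum R') : IsPw p (q.valuation L' x) := by
  have hqL : IsKum p (algebraMap K' L' (cst k K' ζ)) (algebraMap K' L' D) (algebraMap K L s) := by
    refine kum_up hq htop' htop (fF_monic hF _) ?_ hirr' ?_ hθ'
    · rw [fF_natDegree hF]
      exact hpos
    · rwa [fF_alg]
  -- the rings
  obtain ⟨φR, hφR1, hφR2⟩ := exists_alg (k := k) (K' := L') (K := L) R' R
  letI : Algebra R' R := φR.toAlgebra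
  haveI : IsScalarTower k[X] R' R := IsScalarTower.of_algebraMap_eq fun p => (hφR2 p).symm
  haveI := hfsL.finite R
  haveI := hfsL'.finite R'
  haveI : Module.Finite R' R := Module.Finite.of_restrictScalars_finite k[X] R' R
  haveI : Algebra.IsIntegral R' R := Algebra.IsIntegral.of_finite R' R
  haveI : Module.IsTorsionFree R' R := by
    rw [Module.isTorsionFree_iff_algebraMap_injective]
    exact TT.tf_of (K' := L') (K := L) (IsFractionRing.injective R' L') hφR1
  letI : Algebra R' L := ((algebraMap L' L).comp (algebraMap R' L')).toAlgebra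
  haveI : IsScalarTower R' L' L := IsScalarTower.of_algebraMap_eq fun _ => rfl
  haveI : IsScalarTower R' R L := IsScalarTower.of_algebraMap_eq fun a => (hφR1 a).symm
  by_cases hD : IsPw p (q.valuation L' (algebraMap K' L' D))
  · exact even_down (B := R) hqL (isUnit_p hp hζ R') q hD hev
  · -- the rings of integers of `K'` and `K`
    have hfs' : FS k K' := htw.fs hp hζ
    have hfs : FS k K := hfs'.trans hq.fin hq.separable
    obtain ⟨A', a1, a2, a3, a4, a5⟩ := exists_ic (k := k) K'
    obtain ⟨A, b1, b2, b3, b4, b5⟩ := exists_ic (k := k) K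
    obtain ⟨φ, hφ1, hφ2⟩ := exists_alg (k := k) (K' := K') (K := K) A' A
    obtain ⟨ψ, hψ1, hψ2⟩ := exists_alg (k := k) (K' := K') (K := L') A' R'
    letI : Algebra A' A := φ.toAlgebra
    letI : Algebra A' R' := ψ.toAlgebra
    haveI : IsScalarTower k[X] A' A := IsScalarTower.of_algebraMap_eq fun p => (hφ2 p).symm
    haveI : IsScalarTower k[X] A' R' := IsScalarTower.of_algebraMap_eq fun p => (hψ2 p).symm
    haveI := hfs.ded A
    haveI := hfs.frac A
    haveI := hfs.finite A
    haveI := hfs'.ded A'
    haveI := hfs'.frac A'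
    haveI := hfs'.finite A'
    haveI : Module.Finite A' A := Module.Finite.of_restrictScalars_finite k[X] A' A
    haveI : Module.Finite A' R' := Module.Finite.of_restrictScalars_finite k[X] A' R'
    haveI : Algebra.IsIntegral A' A := Algebra.IsIntegral.of_finite A' A
    haveI : Algebra.IsIntegral A' R' := Algebra.IsIntegral.of_finite A' R'
    haveI : Algebra.IsIntegral k[X] A' := Algebra.IsIntegral.of_finite k[X] A'
    haveI : Module.IsTorsionFree A' A := by
      rw [Module.isTorsionFree_iff_algebraMap_injective]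
      exact TT.tf_of (K' := K') (K := K) (IsFractionRing.injective A' K') hφ1
    haveI : Module.IsTorsionFree A' R' := by
      rw [Module.isTorsionFree_iff_algebraMap_injective]
      exact TT.tf_of (K' := K') (K := L') (IsFractionRing.injective A' K') hψ1
    haveI : Module.IsTorsionFree k[X] R' := by
      rw [Module.isTorsionFree_iff_algebraMap_injective]
      exact hfsL'.injB R'
    letI : Algebra A' K := ((algebraMap K' K).comp (algebraMap A' K')).toAlgebra
    haveI : IsScalarTower A' K' K := IsScalarTower.of_algebraMap_eq fun _ => rfl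
    haveI : IsScalarTower A' A K := IsScalarTower.of_algebraMap_eq fun a => (hφ1 a).symm
    letI : Algebra A' L' := ((algebraMap K' L').comp (algebraMap A' K')).toAlgebra
    haveI : IsScalarTower A' K' L' := IsScalarTower.of_algebraMap_eq fun _ => rfl
    haveI : IsScalarTower A' R' L' := IsScalarTower.of_algebraMap_eq fun a => (hψ1 a).symm
    set v := q.under A' with hv
    have hDp : ¬ IsPw p (v.valuation K' D) := by
      rintro ⟨δ, hδ⟩
      apply hD
      rw [val_under (A := A'), ← hv, hδ]
      exact ⟨δ ^ v.asIdeal.ramificationIdx' q.asIdeal, by rw [← pow_mul, ← pow_mul, mul_comm]⟩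
    obtain ⟨V, hV⟩ := exists_above (B := A) v
    have h1 : v.asIdeal.map (algebraMap A' A) ≤ V.asIdeal ^ 2 := by
      rw [← hV] at hDp ⊢
      exact ram_of_odd (K := K') (L := K) hq V hDp
    obtain ⟨b, -, hb, hbp⟩ := exists_irr (hfs'.injB A') v
    have hbV : algebraMap k[X] A b ∈ V.asIdeal ^ 2 := by
      rw [IsScalarTower.algebraMap_apply k[X] A' A]
      exact h1 (Ideal.mem_map_of_mem _ hbp)
    obtain ⟨hbi, -⟩ := hram A V b hb hbV
    -- the root
    have hroot : eval₂ (algebraMap k[X] L') θ' F = 0 := by
      have h3 := hθ'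
      rw [aeval_def, fF, eval₂_map, ← IsScalarTower.algebraMap_eq k[X] K' L'] at h3
      exact h3
    obtain ⟨θR, hθR⟩ : ∃ θR : R', algebraMap R' L' θR = θ' :=
      (IsIntegralClosure.isIntegral_iff (A := R') (R := k[X])).1 ⟨F, hF, hroot⟩
    have hθR2 : eval₂ (algebraMap k[X] R') θR F = 0 := by
      apply IsFractionRing.injective R' L'
      rw [hom_eval₂, hθR, map_zero, ← IsScalarTower.algebraMap_eq k[X] R' L']
      exact hroot
    have hfr : Module.finrank K' L' = F.natDegree := by
      rw [TW.finrank_of hirr' (fF_monic hF _) hθ' htop', fF_natDegree hF]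
    have hn : Module.finrank A' R' = F.natDegree := by
      rw [← IsFractionRing.finrank_eq A' K' R' L', hfr]
    obtain ⟨j, hj⟩ := htw.resPow hp hζ A' v
    have hmap := inert_q q hb (show algebraMap k[X] R' b ∈ q.asIdeal by
      rw [IsScalarTower.algebraMap_apply k[X] A' R']
      exact hbp) θR hF hθR2 hbi hcop hn hj
    haveI : FiniteDimensional K' L' := TW.fin_of (fF_monic hF _) hθ' htop'
    exact even_inert hp.ne_zero v q hmap (by rw [hfr]; exact hcop.symm) hy

end step

end Pool.Agent.Q45.TG
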