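import Pool.Agent.Q45.TG.Comp

/-!
# The surfaces `w ^ q = F(x, h(u))`
-/

set_option autoImplicit false
set_option linter.all false

open Polynomial IsDedekindDomain WithZero
open scoped Classical

namespace Pool.Agent.Q45.TG

open Pool.Agent.Q45.TW (cst IsGeom)
open Pool.Agent.Q45.TL (IsTower)
open Pool.Agent.Q45.GP (Regular TateOver)
open Pool.Agent.Y160.SQ

attribute [local instance] iCR iDom iDed iFi iAl iAA iFR iST

section surf

variable {p e q : ℕ} {k : Type} [Field k] {F : k[X][X]} {ζ : k}

/-- The polynomial `F(x, h(u))`. -/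
noncomputable def compF (F : k[X][X]) (h : k[X]) : k[X][X] := F.map (compRingHom h)

theorem fF_comp (F : k[X][X]) (h : k[X]) (R : Type) [CommRing R] [Algebra k[X] R] :
    fF F (KK h R) = (compF F h).map (algebraMap k[X] R) :=
  (Polynomial.map_map (compRingHom h) (algebraMap k[X] R) F).symm

/-- The ramification of `k(u)` over `k(h(u))`. -/
theorem ram_comp {h : k[X]} (hram : ∀ b : k[X], b.Monic → Irreducible b → ¬ Squarefree (b.comp h) →
    Irreducible (redF F b) ∧ (redF F b).Separable) : Ram F (KK h k[X]) := by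
  intro v b hb hbv
  have hl : b.leadingCoeff ≠ 0 := leadingCoeff_ne_zero.2 hb.ne_zero
  have hu : IsUnit (C (b.leadingCoeff⁻¹) : k[X]) := isUnit_C.2 (isUnit_iff_ne_zero.2 (inv_ne_zero hl))
  have hm : (b * C b.leadingCoeff⁻¹).Monic := monic_mul_leadingCoeff_inv hb.ne_zero
  have hi : Irreducible (b * C b.leadingCoeff⁻¹) := (irreducible_mul_isUnit hu).2 hb
  have h1 : Irreducible (redF F (b * C b.leadingCoeff⁻¹)) ∧
      (redF F (b * C b.leadingCoeff⁻¹)).Separable := by
    refine hram _ hm hi fun hsq => ?_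
    let v' : HeightOneSpectrum k[X] := v
    obtain ⟨π, hπ⟩ := (IsPrincipalIdealRing.principal v'.asIdeal).principal
    have hπ' : v'.asIdeal = Ideal.span {π} := hπ
    have h3 : b.comp h ∈ v'.asIdeal ^ 2 := hbv
    rw [hπ', Ideal.span_singleton_pow, Ideal.mem_span_singleton] at h3
    have h5 : π * π ∣ (b * C b.leadingCoeff⁻¹).comp h := by
      rw [mul_comp, ← pow_two]
      exact h3.mul_right _
    have h6 := hsq π h5
    apply v'.isPrime.ne_top
    rw [hπ']
    exact Ideal.span_singleton_eq_top.2 h6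
  have hs : Ideal.span {b * C b.leadingCoeff⁻¹} = Ideal.span {b} :=
    Ideal.span_singleton_mul_right_unit hu b
  have key : ∀ I : Ideal k[X], I = Ideal.span {b} →
      (Irreducible (F.map (Ideal.Quotient.mk I)) ∧ (F.map (Ideal.Quotient.mk I)).Separable) →
      (Irreducible (F.map (Ideal.Quotient.mk (Ideal.span {b}))) ∧
        (F.map (Ideal.Quotient.mk (Ideal.span {b}))).Separable) := by
    rintro I rfl h
    exact h
  exact key _ hs h1

theorem surf_sha (hp : p.Prime) (hqe : q = p ^ e) (he : e ≠ 0) (hζ : IsPrimitiveRoot ζ q)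
    (hF : F.Monic) (hirrF : Irreducible F) (hpos : 0 < F.natDegree) (hcop : p.Coprime F.natDegree)
    (hd : derivative F ≠ 0)
    (hsm : ∃ a₁ a₂ a₃ : k[X][X], a₁ * F + a₂ * derivative F + a₃ * ds F = 1) (hB : IsBr p F)
    (l : List k) (hram : ∀ b : k[X], b.Monic → Irreducible b → ¬ Squarefree (b.comp (nest p l)) →
      Irreducible (redF F b) ∧ (redF F b).Separable)
    (K : Type) [Field K] [Algebra k[X] K] [IsFractionRing k[X] K] :
    Pool.Agent.Y160.SH.ShaTriv p q k[X] ((compF F (nest p l)).map (algebraMap k[X] K)) ∧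
      ∀ x : Jac q ((compF F (nest p l)).map (algebraMap k[X] K)) K, ∃! y, p • y = x := by
  obtain ⟨hm, hpos'⟩ := nest_monic hp.pos l
  haveI : IsIntegralClosure (KK (nest p l) k[X]) k[X] (KK (nest p l) K) := by
    haveI : IsIntegralClosure k[X] k[X] K := IsIntegralClosure.of_isIntegrallyClosed k[X] k[X] K
    exact ic_KK hm hpos' k[X] K
  have h1 := sha_tower hp hqe he hζ hF hirrF hpos hcop hd hsm hB (tower_nest hp.pos K l)
    (A := KK (nest p l) k[X]) (ram_comp hram)
  rw [fF_comp] at h1
  exact h1

theorem surf_tate {k' : Type} [Field k'] [Algebra k k'] [IsGalois k k'] (hp : p.Prime)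
    (hqe : q = p ^ e) (he : e ≠ 0)
    (hζ : IsPrimitiveRoot ζ q) (hF : F.Monic) (hirrF : Irreducible F) (hpos : 0 < F.natDegree)
    (hcop : p.Coprime F.natDegree) (hd : derivative F ≠ 0)
    (hsm : ∃ a₁ a₂ a₃ : k[X][X], a₁ * F + a₂ * derivative F + a₃ * ds F = 1) (hB : IsBr p F)
    (hgi : Irreducible (upF k' F))
    (l : List k) (hram : ∀ b : k[X], b.Monic → Irreducible b → ¬ Squarefree (b.comp (nest p l)) →
      Irreducible (redF F b) ∧ (redF F b).Separable)
    (K : Type) [Field K] [Algebra k[X] K] [IsFractionRing k[X] K] {E : Type} [Field E]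
    [Algebra k'[X] E] [Algebra K E] (hE : IsGeom k k' K E) {A' : Type} [CommRing A']
    [IsDedekindDomain A'] [Algebra A' E] [IsFractionRing A' E] [Algebra k'[X] A']
    [IsScalarTower k'[X] A' E] [IsIntegralClosure A' k'[X] E] :
    TateOver (F := E) p q A' ((compF F (nest p l)).map (algebraMap k[X] K)) := by
  obtain ⟨hm, hpos'⟩ := nest_monic hp.pos l
  set h := nest p l with hh
  set h' : k'[X] := h.map (algebraMap k k') with hh'
  have hm' : h'.Monic := hm.map _
  have hpos'' : 0 < h'.natDegree := by rwa [hh', hm.natDegree_map]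
  haveI : IsIntegralClosure (KK h k[X]) k[X] (KK h K) := by
    haveI : IsIntegralClosure k[X] k[X] K := IsIntegralClosure.of_isIntegrallyClosed k[X] k[X] K
    exact ic_KK hm hpos' k[X] K
  haveI : IsIntegralClosure (KK h' A') k'[X] (KK h' E) := ic_KK hm' hpos'' A' E
  have hE' : IsGeom k k' (KK h K) (KK h' E) := by
    have hcomp : Function.Injective (compRingHom h' : k'[X] →+* k'[X]) := by
      intro a b hab
      have h1 : (a - b).comp h' = 0 := by
        rw [sub_comp]
        exact sub_eq_zero.2 hab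
      rcases comp_eq_zero_iff.1 h1 with h3 | ⟨-, h3⟩
      · exact sub_eq_zero.1 h3
      · have h4 := congrArg natDegree h3
        rw [natDegree_C] at h4
        omega
    refine ⟨hE.inj.comp hcomp, fun r => ?_, ?_⟩
    · show algebraMap K E (algebraMap k[X] K (r.comp h)) =
        algebraMap k'[X] E ((r.map (algebraMap k k')).comp h')
      rw [hE.comp, map_comp]
    · have h1 : (algebraMap k'[X] (KK h' E)).comp C = (algebraMap k'[X] E).comp C :=
        RingHom.ext fun c => by
          show algebraMap k'[X] E ((C c : k'[X]).comp h') = algebraMap k'[X] E (C c)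
          rw [C_comp]
      have h3 : Set.range ((algebraMap k'[X] (KK h' E)).comp C) =
          Set.range ((algebraMap k'[X] E).comp C) :=
        congrArg (fun φ : k' →+* E => Set.range φ) h1
      rw [h3]
      exact hE.gen
  have h1 := tate_tower (k' := k') (E := KK h' E) (A' := KK h' A') hp hqe he hζ hF hirrF hpos hcop hd
    hsm hB hgi (tower_nest hp.pos K l) (A := KK h k[X]) (ram_comp hram) hE'
  rw [fF_comp] at h1
  exact h1

end surf

end Pool.Agent.Q45.TG
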