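import Pool.Agent.Q45.TG.Step

/-!
# The inductive step
-/

set_option autoImplicit false
set_option linter.all false

open Polynomial IsDedekindDomain WithZero
open scoped Classical

namespace Pool.Agent.Q45.TG

open Pool.Agent.Q45.TW (cst)
open Pool.Agent.Y160.SE (IsPw)
open Pool.Agent.Q45.TT (FS FS.base exists_alg exists_ic exists_above exists_irr val_under exists_sub)
open Pool.Agent.Q45.TL (IsTower IsKum kum_up isUnit_p even_down ram_of_odd even_inert irr_up
  tau_comm exists_restr fixed_class norm_class even_hom norm_tau iter_pow)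

section step

variable {p : ℕ} {k : Type} [Field k] {F : k[X][X]} {ζ : k}

/-- **The inductive step.** -/
theorem Triv.step (hp : p.Prime) (hζ : IsPrimitiveRoot ζ p) (hF : F.Monic) (hpos : 0 < F.natDegree)
    (hcop : p.Coprime F.natDegree) (hirrF : Irreducible F) (hd : derivative F ≠ 0) {K' K : Type} [Field K'] [Field K]
    [Algebra k[X] K'] [Algebra k[X] K] [Algebra K' K] [IsScalarTower k[X] K' K] {D : K'} {s : K}
    (hq : IsKum p (cst k K' ζ) D s) {m' : ℕ} {s' : ℕ → K'} (htw : IsTower p k K' m' s')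
    (hram : RamK F K) (ih : Triv p F K') : Triv p F K := by
  intro L _ _ _ _ θ hθ htop R _ _ _ _ _ _ _ z hz hev hu
  have hirr' : Irreducible (fF F K') := irr_tower hp hζ hF hirrF hpos hcop htw
  haveI := hq.fin
  have hirr : Irreducible (fF F K) := by
    rw [← fF_alg (K' := K') (K := K)]
    exact irr_up hq.finrank (fF_monic hF _) (by rwa [fF_natDegree hF])
      (by rwa [fF_natDegree hF]) hirr'
  have hsep' : (fF F K').Separable := sep_fF (htw.fs hp hζ).inj hirr' hd
  have hsep : (fF F K).Separable := sep_fF ((htw.fs hp hζ).trans hq.fin hq.separable).inj hirr hd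
  have hm' : (fF F K').Monic := fF_monic hF _
  have hm : (fF F K).Monic := fF_monic hF _
  letI : Algebra K' L := ((algebraMap K L).comp (algebraMap K' K)).toAlgebra
  haveI : IsScalarTower K' K L := IsScalarTower.of_algebraMap_eq fun _ => rfl
  haveI : IsScalarTower k[X] K' L := IsScalarTower.of_algebraMap_eq fun p => by
    show algebraMap k[X] L p = algebraMap K L (algebraMap K' K (algebraMap k[X] K' p))
    rw [← IsScalarTower.algebraMap_apply k[X] K' K, ← IsScalarTower.algebraMap_apply k[X] K L]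
  obtain ⟨L', l1, l2, l3, l4, θ', l5, l6, l7, rfl, htop'⟩ := exists_sub (k := k) (K' := K') θ
  have hθ' : aeval θ' (fF F K') = 0 := by
    apply (algebraMap L' L).injective
    rw [← aeval_algebraMap_apply, ← aeval_map_algebraMap K, fF_alg, hθ, map_zero]
  have hfs' : FS k K' := htw.fs hp hζ
  have hfs : FS k K := hfs'.trans hq.fin hq.separable
  haveI : FiniteDimensional K' L' := TW.fin_of hm' hθ' htop'
  haveI : FiniteDimensional K L := TW.fin_of hm hθ htop
  have hfsL' : FS k L' := hfs'.trans (TW.fin_of hm' hθ' htop') (TW.sep_of hsep' hθ' htop')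
  have hfsL : FS k L := hfs.trans (TW.fin_of hm hθ htop) (TW.sep_of hsep hθ htop)
  obtain ⟨R', r1, r2, r3, r4, r5⟩ := exists_ic (k := k) L'
  haveI := hfsL'.ded R'
  haveI := hfsL'.frac R'
  have hn : Module.finrank K' L' = F.natDegree := by
    rw [TW.finrank_of hirr' hm' hθ' htop', fF_natDegree hF]
  have hqL : IsKum p (algebraMap K' L' (cst k K' ζ)) (algebraMap K' L' D) (algebraMap K L s) := by
    refine kum_up hq htop' htop hm' ?_ hirr' ?_ hθ'
    · rw [fF_natDegree hF]
      exact hpos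
    · rwa [fF_alg]
  obtain ⟨τK, hK, -, -, -, -⟩ := hq.exists_tau
  obtain ⟨τL, hL, hgal, hgen, hpp, hfix⟩ := hqL.exists_tau
  haveI := hgal
  have hcomm := tau_comm (K := K) (L := L) hq hK hL
  -- the restriction to the ring of integers
  obtain ⟨φ, hφ1, hφi, hφs⟩ := exists_restr (k := k) (τL : L ≃+* L) (fun q => by
    show τL (algebraMap k[X] L q) = _
    rw [IsScalarTower.algebraMap_apply k[X] L' L, AlgEquiv.commutes]) R
  have hbase : ∀ w : L', Algebra.norm K (algebraMap L' L w) = algebraMap K' K (Algebra.norm K' w) :=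
    fun w => TW.norm_base hm' hsep' hirr' (by rwa [fF_alg]) hθ' htop' htop w
  -- the classes with a trivial conjugate quotient
  have claim1 : ∀ z : L, z ≠ 0 → (∀ w : HeightOneSpectrum R, IsPw p (w.valuation L z)) →
      (∃ u : K, Algebra.norm K z = u ^ p) → (∃ c : L, τL z / z = c ^ p) → ∃ c : L, z = c ^ p := by
    rintro z hz hev ⟨u, hu⟩ ⟨y, hy⟩
    have hy' : τL z = z * y ^ p := by
      rw [← hy, mul_div_cancel₀ _ hz]
    obtain ⟨w₀, ρ₀, hw₀, hρ₀, hzw₀⟩ := fixed_class hcop hq hqL hn hK hL hgen hfix hz hu hy'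
    obtain ⟨w, ρ, c, hw, hρ, hc, hzw⟩ := norm_class hcop hq hqL hn hbase hu hw₀ hρ₀ hzw₀
    have hev' : ∀ Q : HeightOneSpectrum R, IsPw p (Q.valuation L (algebraMap L' L w)) := by
      intro Q
      have h1 := hev Q
      rw [hzw, map_mul, map_pow] at h1
      exact IsPw.of_mul ((Valuation.ne_zero_iff _).2 hρ) h1
    obtain ⟨c', hc'⟩ := ih L' θ' hθ' htop' R' w hw
      (even_all hp hζ hF hpos hcop hq hθ' htop' htop hirr' hirr htw hfsL' hfsL hram hc hev')
      ⟨c, hc⟩
    exact ⟨algebraMap L' L c' * ρ, by rw [hzw, hc', map_pow, mul_pow]⟩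
  have claim2 : ∀ (n : ℕ) (z : L), z ≠ 0 →
      (∀ w : HeightOneSpectrum R, IsPw p (w.valuation L z)) →
      (∃ u : K, Algebra.norm K z = u ^ p) → (∃ c : L, (fun x => τL x / x)^[n] z = c ^ p) →
      ∃ c : L, z = c ^ p := by
    intro n
    induction n with
    | zero => intro z _ _ _ h; exact h
    | succ n ihn =>
      rintro z hz hev ⟨u, hu⟩ h
      refine claim1 z hz hev ⟨u, hu⟩ (ihn (τL z / z) ?_ (fun w => ?_) ?_ h)
      · exact div_ne_zero ((_root_.map_ne_zero τL).2 hz) hz
      · rw [map_div₀]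
        have h1 := even_hom φ (τL : L →+* L) (fun r => hφ1 r) hφi hφs hev w
        obtain ⟨δ, hδ⟩ := h1
        obtain ⟨δ', hδ'⟩ := hev w
        have hδ2 : w.valuation L (τL z) = δ ^ p := hδ
        exact ⟨δ / δ', by rw [hδ2, hδ', div_pow]⟩
      · refine ⟨τK u / u, ?_⟩
        have hNz : Algebra.norm K z ≠ 0 := Algebra.norm_ne_zero_iff.2 hz
        rw [div_pow, ← map_pow, ← hu, ← norm_tau hcomm, eq_div_iff hNz, ← map_mul,
          div_mul_cancel₀ _ hz]
  refine claim2 p z hz hev hu ?_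
  obtain ⟨c, hc⟩ := iter_pow hp (τL : L ≃+* L) (fun x => by
    have h1 : ∀ (n : ℕ) (x : L), (⇑(τL : L ≃+* L))^[n] x = (τL ^ n) x := by
      intro n
      induction n with
      | zero => intro x; rfl
      | succ n ihn =>
        intro x
        rw [Function.iterate_succ_apply, ihn, pow_succ, AlgEquiv.mul_apply]
        rfl
    rw [h1, hpp]
    rfl) hz
  exact ⟨c, hc⟩

/-- The case of a prime power. -/
theorem Triv.pow (hp : p.Prime) {K : Type} [Field K] [Algebra k[X] K] (hF : F.Monic)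
    (hpos : 0 < F.natDegree) (h : Triv p F K) :
    ∀ (m : ℕ) {ξ : k}, IsPrimitiveRoot ξ (p ^ m) → Triv (p ^ m) F K := by
  intro m
  induction m with
  | zero =>
    intro ξ _ L _ _ _ _ θ hθ htop R _ _ _ _ _ _ _ z hz hev hno
    exact ⟨z, by rw [pow_zero, pow_one]⟩
  | succ m ih =>
    rintro ξ hξ L _ _ _ _ θ hθ htop R _ _ _ _ _ _ _ z hz hev ⟨u, hu⟩
    haveI : NeZero p := ⟨hp.ne_zero⟩
    haveI : FiniteDimensional K L := TW.fin_of (fF_monic hF _) hθ htop
    obtain ⟨c, hc⟩ := h L θ hθ htop R z hz (fun w => by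
      obtain ⟨δ, hδ⟩ := hev w
      exact ⟨δ ^ p ^ m, by rw [hδ, ← pow_mul, pow_succ]⟩) ⟨u ^ p ^ m, by
        rw [hu, ← pow_mul, pow_succ]⟩
    have hc0 : c ≠ 0 := by
      rintro rfl
      rw [zero_pow hp.ne_zero] at hc
      exact hz hc
    have hu0 : u ≠ 0 := by
      rintro rfl
      rw [zero_pow (pow_ne_zero _ hp.ne_zero)] at hu
      exact hz (Algebra.norm_eq_zero_iff.1 hu)
    -- the root of unity
    have hζK : IsPrimitiveRoot (cst k K (ξ ^ p ^ m)) p := by
      have h1 : IsPrimitiveRoot (ξ ^ p ^ m) p := by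
        have h3 := hξ.pow (pow_pos hp.pos _) (pow_succ p m)
        exact h3
      exact h1.map_of_injective (f := cst k K) (cst k K).injective
    have h1 : (Algebra.norm K c / u ^ p ^ m) ^ p = 1 := by
      rw [div_pow, ← map_pow, ← hc, hu, ← pow_mul, pow_succ]
      exact div_self (pow_ne_zero _ hu0)
    obtain ⟨i, -, hi⟩ := hζK.eq_pow_of_pow_eq_one h1
    obtain ⟨d, hd⟩ := ih (ξ := ξ ^ p) (hξ.pow (pow_pos hp.pos _) (by rw [pow_succ, mul_comm]))
      L θ hθ htop R c hc0 (fun w => by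
        obtain ⟨δ, hδ⟩ := hev w
        refine ⟨δ, ?_⟩
        rw [hc, map_pow, pow_succ, pow_mul] at hδ
        exact (pow_left_inj₀ zero_le' zero_le' hp.ne_zero).1 hδ)
      ⟨cst k K ξ ^ i * u, by
        rw [mul_pow, ← pow_mul, mul_comm i, pow_mul, ← map_pow, hi,
          div_mul_cancel₀ _ (pow_ne_zero _ hu0)]⟩
    exact ⟨d, by rw [hc, hd, ← pow_mul, pow_succ]⟩

end step

end Pool.Agent.Q45.TG
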